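import Mathlib

/-!
# Mean ratios of the masses of concentric balls and the correlation dimension
-/

namespace Pool.Agent.H237.Rare

open MeasureTheory Set Filter Topology Metric
open scoped ENNReal

variable (σ : Measure UnitAddCircle) [IsProbabilityMeasure σ]

/-- The mass of the ball about `x`. -/
noncomputable def F (r : ℝ) (x : UnitAddCircle) : ℝ := σ.real (closedBall x r)

lemma measurable_ball (r : ℝ) : Measurable fun x => σ (closedBall x r) := by
  have hs : MeasurableSet {z : UnitAddCircle × UnitAddCircle | dist z.2 z.1 ≤ r} :=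
    (isClosed_le (by fun_prop) continuous_const).measurableSet
  exact measurable_measure_prodMk_left hs

lemma measurable_F (r : ℝ) : Measurable (F σ r) := (measurable_ball σ r).ennreal_toReal

omit [IsProbabilityMeasure σ] in
lemma F_nonneg (r : ℝ) (x : UnitAddCircle) : 0 ≤ F σ r x := measureReal_nonneg

lemma F_le_one (r : ℝ) (x : UnitAddCircle) : F σ r x ≤ 1 := measureReal_le_one

lemma F_mono {r s : ℝ} (h : r ≤ s) (x : UnitAddCircle) : F σ r x ≤ F σ s x :=
  measureReal_mono (closedBall_subset_closedBall h)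

/-- A lower bound of the masses of the balls. -/
lemma F_pos {r : ℝ} (hr : 0 < r) : ∃ m : ℝ, 0 < m ∧ ∀ᵐ x ∂σ, m ≤ F σ r x := by
  classical
  obtain ⟨t, ht⟩ := isCompact_univ.elim_finite_subcover_image (b := (univ : Set UnitAddCircle))
    (c := fun c => ball c (r / 2)) (fun _ _ => isOpen_ball) (by
      intro x _
      rw [mem_iUnion₂]
      exact ⟨x, mem_univ x, mem_ball_self (by positivity)⟩)
  obtain ⟨-, htf, hcov⟩ := ht
  set t' := htf.toFinset.filter fun c => σ (ball c (r / 2)) ≠ 0 with ht'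
  have hae : ∀ᵐ x ∂σ, ∃ c ∈ t', x ∈ ball c (r / 2) := by
    have hnull : σ (⋃ c ∈ {c ∈ t | σ (ball c (r / 2)) = 0}, ball c (r / 2)) = 0 := by
      rw [measure_biUnion_null_iff (htf.subset (fun c hc => hc.1)).countable]
      intro c hc
      exact hc.2
    have h2 := measure_eq_zero_iff_ae_notMem.mp hnull
    filter_upwards [h2] with x hx
    have h3 := hcov (mem_univ x)
    rw [mem_iUnion₂] at h3
    obtain ⟨c, hc, hxc⟩ := h3
    refine ⟨c, ?_, hxc⟩
    rw [ht', Finset.mem_filter, Set.Finite.mem_toFinset]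
    refine ⟨hc, fun h0 => hx ?_⟩
    rw [mem_iUnion₂]
    exact ⟨c, ⟨hc, h0⟩, hxc⟩
  have hne : t'.Nonempty := by
    obtain ⟨x, c, hc, -⟩ := hae.exists
    exact ⟨c, hc⟩
  obtain ⟨c₀, hc₀, hmin⟩ := Finset.exists_min_image t' (fun c => σ.real (ball c (r / 2))) hne
  refine ⟨σ.real (ball c₀ (r / 2)), ?_, ?_⟩
  · rw [ht', Finset.mem_filter] at hc₀
    exact (ENNReal.toReal_pos hc₀.2 (measure_ne_top _ _))
  · filter_upwards [hae] with x hx
    obtain ⟨c, hc, hxc⟩ := hx
    refine le_trans (hmin c hc) (measureReal_mono ?_)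
    intro z hz
    rw [mem_ball] at hz hxc
    rw [mem_closedBall]
    have := dist_triangle_right z x c
    linarith

lemma exists_rep (z : UnitAddCircle) : ∃ t : ℝ, (t : UnitAddCircle) = z ∧ |t| = ‖z‖ := by
  induction z using QuotientAddGroup.induction_on with
  | H t =>
    refine ⟨t - round t, ?_, ?_⟩
    · rw [AddCircle.coe_sub]
      have : ((round t : ℝ) : UnitAddCircle) = 0 := by
        rw [AddCircle.coe_eq_zero_iff]
        exact ⟨round t, by simp⟩
      rw [this, sub_zero]
    · exact (UnitAddCircle.norm_eq (x := t)).symm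

/-- Covering of a ball by five smaller ones. -/
lemma cover (y : UnitAddCircle) {s : ℝ} (hs : 0 < s) :
    closedBall y (2 * s) ⊆ ⋃ j : Fin 5, closedBall (y + (((j : ℕ) - 2 : ℝ) * s : ℝ)) (s / 2) := by
  intro x hx
  obtain ⟨t, ht1, ht2⟩ := exists_rep (x - y)
  rw [mem_closedBall, dist_eq_norm, ← ht2] at hx
  set i := round (t / s) with hi
  have h1 : |t / s - i| ≤ 1 / 2 := abs_sub_round (t / s)
  have h2 : |t / s| ≤ 2 := by
    rw [abs_div, abs_of_pos hs, div_le_iff₀ hs]
    exact hx
  have h3 := abs_le.mp h1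
  have h4 := abs_le.mp h2
  have hi1 : (-3 : ℝ) < i := by linarith
  have hi2 : (i : ℝ) < 3 := by linarith
  have hi1' : -3 < i := by exact_mod_cast hi1
  have hi2' : i < 3 := by exact_mod_cast hi2
  rw [mem_iUnion]
  refine ⟨⟨(i + 2).toNat, by omega⟩, ?_⟩
  have h5 : (((i + 2).toNat : ℕ) : ℝ) = i + 2 := by
    have : (((i + 2).toNat : ℕ) : ℤ) = i + 2 := Int.toNat_of_nonneg (by omega)
    exact_mod_cast this
  rw [mem_closedBall, dist_eq_norm]
  simp only [h5]
  have h6 : x - (y + (((i : ℝ) + 2 - 2) * s : ℝ)) = ((t - i * s : ℝ) : UnitAddCircle) := by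
    rw [AddCircle.coe_sub, ht1]
    have : ((i : ℝ) + 2 - 2) * s = i * s := by ring
    rw [this]
    abel
  rw [h6]
  have h7 : ‖((t - i * s : ℝ) : UnitAddCircle)‖ ≤ |t - i * s| := by
    rw [UnitAddCircle.norm_eq]
    have := round_le (t - i * s) 0
    simpa using this
  refine le_trans h7 ?_
  have h8 : t - i * s = (t / s - i) * s := by field_simp
  rw [h8, abs_mul, abs_of_pos hs]
  nlinarith

/-- The mean of the inverse ratio is bounded. -/
lemma ratio_lintegral {s : ℝ} (hs : 0 < s) :
    ∫⁻ x, σ (closedBall x (2 * s)) * (σ (closedBall x s))⁻¹ ∂σ ≤ 5 := by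
  set φ : UnitAddCircle → ℝ≥0∞ := fun x => (σ (closedBall x s))⁻¹ with hφ
  have hφm : Measurable φ := (measurable_ball σ s).inv
  have hS : MeasurableSet {z : UnitAddCircle × UnitAddCircle | dist z.1 z.2 ≤ 2 * s} :=
    (isClosed_le (by fun_prop) continuous_const).measurableSet
  have h1 : ∀ x, σ (closedBall x (2 * s)) * φ x = ∫⁻ y,
      ({z : UnitAddCircle × UnitAddCircle | dist z.1 z.2 ≤ 2 * s}.indicator
        (fun z => φ z.1) (x, y)) ∂σ := by
    intro x
    have h2 : ∀ y, ({z : UnitAddCircle × UnitAddCircle | dist z.1 z.2 ≤ 2 * s}.indicator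
        (fun z => φ z.1) (x, y)) = (closedBall x (2 * s)).indicator (fun _ => φ x) y := by
      intro y
      by_cases h : dist x y ≤ 2 * s
      · rw [indicator_of_mem (by exact h), indicator_of_mem (by rw [mem_closedBall']; exact h)]
      · rw [indicator_of_notMem (by exact h),
          indicator_of_notMem (by rw [mem_closedBall']; exact h)]
    simp_rw [h2]
    rw [lintegral_indicator_const measurableSet_closedBall, mul_comm]
  change ∫⁻ x, σ (closedBall x (2 * s)) * φ x ∂σ ≤ 5
  rw [lintegral_congr h1, lintegral_lintegral_swap]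
  swap
  · exact ((hφm.comp measurable_fst).indicator hS).aemeasurable
  calc ∫⁻ y, ∫⁻ x, ({z : UnitAddCircle × UnitAddCircle | dist z.1 z.2 ≤ 2 * s}.indicator
        (fun z => φ z.1) (x, y)) ∂σ ∂σ ≤ ∫⁻ _, 5 ∂σ := by
        apply lintegral_mono
        intro y
        dsimp only
        have h2 : ∀ x, ({z : UnitAddCircle × UnitAddCircle | dist z.1 z.2 ≤ 2 * s}.indicator
            (fun z => φ z.1) (x, y)) = (closedBall y (2 * s)).indicator φ x := by
          intro x
          by_cases h : dist x y ≤ 2 * s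
          · rw [indicator_of_mem (by exact h), indicator_of_mem (by rw [mem_closedBall]; exact h)]
          · rw [indicator_of_notMem (by exact h),
              indicator_of_notMem (by rw [mem_closedBall]; exact h)]
        refine le_trans (lintegral_congr h2).le ?_
        rw [lintegral_indicator measurableSet_closedBall]
        refine le_trans (lintegral_mono_set (cover y hs)) ?_
        refine le_trans (lintegral_iUnion_le _ _) ?_
        rw [tsum_fintype]
        refine le_trans (Finset.sum_le_sum (g := fun _ => (1 : ℝ≥0∞)) ?_) ?_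
        · intro j _
          set c := y + ((((j : ℕ) : ℝ) - 2) * s : ℝ) with hc
          have h3 : ∀ x ∈ closedBall c (s / 2), φ x ≤ (σ (closedBall c (s / 2)))⁻¹ := by
            intro x hx
            rw [hφ]
            dsimp only
            rw [ENNReal.inv_le_inv]
            apply measure_mono
            intro z hz
            rw [mem_closedBall] at hz hx ⊢
            have := dist_triangle_right z x c
            linarith
          refine le_trans (setLIntegral_mono measurable_const h3) ?_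
          rw [setLIntegral_const, mul_comm]
          exact ENNReal.mul_inv_le_one _
        · simp
    _ = 5 := by simp

variable {σ}

lemma ratio_integral {s : ℝ} (hs : 0 < s) :
    Integrable (fun x => F σ (2 * s) x / F σ s x) σ ∧ ∫ x, F σ (2 * s) x / F σ s x ∂σ ≤ 5 := by
  obtain ⟨m, hm, hae⟩ := F_pos σ hs
  have hmeas : Measurable fun x => F σ (2 * s) x / F σ s x :=
    (measurable_F σ _).div (measurable_F σ _)
  have hint : Integrable (fun x => F σ (2 * s) x / F σ s x) σ := by
    refine Integrable.of_bound (C := 1 / m) hmeas.aestronglyMeasurable ?_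
    filter_upwards [hae] with x hx
    rw [Real.norm_of_nonneg (div_nonneg (F_nonneg σ _ _) (F_nonneg σ _ _))]
    exact div_le_div₀ zero_le_one (F_le_one σ _ _) hm hx
  refine ⟨hint, ?_⟩
  rw [integral_eq_lintegral_of_nonneg_ae
    (Eventually.of_forall fun x => div_nonneg (F_nonneg σ _ _) (F_nonneg σ _ _))
    hmeas.aestronglyMeasurable]
  have h1 : ∫⁻ x, ENNReal.ofReal (F σ (2 * s) x / F σ s x) ∂σ ≤ 5 := by
    refine le_trans (lintegral_mono_ae ?_) (ratio_lintegral σ hs)
    filter_upwards [hae] with x hx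
    have hpos : 0 < F σ s x := by linarith
    rw [ENNReal.ofReal_div_of_pos hpos]
    unfold F
    rw [ofReal_measureReal, ofReal_measureReal, div_eq_mul_inv]
  have h2 := ENNReal.toReal_mono (by norm_num) h1
  simpa using h2

lemma log_ineq {h T : ℝ} (hh : 1 ≤ h) (hT : 1 ≤ T) :
    Real.log h ≤ T * (1 - 1 / h) + 2 / Real.sqrt T * h := by
  have hh0 : 0 < h := by linarith
  have hT0 : 0 < T := by linarith
  have hs0 : 0 < Real.sqrt T := Real.sqrt_pos.mpr hT0
  have h1 : 0 ≤ 1 - 1 / h := by
    rw [sub_nonneg, div_le_one hh0]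
    exact hh
  rcases le_or_gt h T with hc | hc
  · have h2 := Real.log_le_sub_one_of_pos hh0
    have h3 : h - 1 = h * (1 - 1 / h) := by field_simp
    have h4 : h * (1 - 1 / h) ≤ T * (1 - 1 / h) := mul_le_mul_of_nonneg_right hc h1
    have h5 : 0 ≤ 2 / Real.sqrt T * h := by positivity
    linarith
  · have h2 : Real.log h = 2 * Real.log (Real.sqrt h) := by
      rw [Real.log_sqrt hh0.le]; ring
    have hsh : 0 < Real.sqrt h := Real.sqrt_pos.mpr hh0
    have h3 := Real.log_le_sub_one_of_pos hsh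
    have h4 : Real.sqrt T ≤ Real.sqrt h := Real.sqrt_le_sqrt hc.le
    have h5 : Real.sqrt h * Real.sqrt h = h := Real.mul_self_sqrt hh0.le
    have h6 : Real.sqrt h ≤ 1 / Real.sqrt T * h := by
      rw [one_div, inv_mul_eq_div, le_div_iff₀ hs0]
      nlinarith
    have h7 : 2 / Real.sqrt T * h = 2 * (1 / Real.sqrt T * h) := by ring
    have h8 : 0 ≤ T * (1 - 1 / h) := mul_nonneg hT0.le h1
    linarith

lemma integrable_logF {r : ℝ} (hr : 0 < r) : Integrable (fun x => Real.log (F σ r x)) σ := by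
  obtain ⟨m, hm, hae⟩ := F_pos σ hr
  refine Integrable.of_bound (C := |Real.log m|)
    (Real.measurable_log.comp (measurable_F σ _)).aestronglyMeasurable ?_
  filter_upwards [hae] with x hx
  have h1 : Real.log m ≤ Real.log (F σ r x) := Real.log_le_log hm hx
  have h2 : Real.log (F σ r x) ≤ 0 := Real.log_nonpos (F_nonneg σ _ _) (F_le_one σ _ _)
  rw [Real.norm_eq_abs, abs_of_nonpos h2, abs_of_nonpos (by linarith)]
  linarith

/-- One step of the scale. -/
lemma entropy_step {s : ℝ} (hs : 0 < s) {η T : ℝ} (hT : 1 ≤ T)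
    (hη : 1 - η ≤ ∫ x, F σ s x / F σ (2 * s) x ∂σ) :
    ∫ x, Real.log (F σ (2 * s) x) ∂σ ≤ ∫ x, Real.log (F σ s x) ∂σ +
      (T * η + 10 / Real.sqrt T) := by
  obtain ⟨hint, h5⟩ := ratio_integral (σ := σ) hs
  obtain ⟨m, hm, hae⟩ := F_pos σ hs
  have hint2 : Integrable (fun x => F σ s x / F σ (2 * s) x) σ := by
    refine Integrable.of_bound (C := 1)
      ((measurable_F σ _).div (measurable_F σ _)).aestronglyMeasurable ?_
    refine Eventually.of_forall fun x => ?_
    rw [Real.norm_of_nonneg (div_nonneg (F_nonneg σ _ _) (F_nonneg σ _ _))]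
    exact div_le_one_of_le₀ (F_mono σ (by linarith) x) (F_nonneg σ _ _)
  have hT0 : 0 < T := by linarith
  have hs0 : 0 < Real.sqrt T := Real.sqrt_pos.mpr hT0
  have i1 : Integrable (fun x => Real.log (F σ s x)) σ := integrable_logF hs
  have i4 : Integrable (fun x => 1 - F σ s x / F σ (2 * s) x) σ := (integrable_const 1).sub hint2
  have i2 : Integrable (fun x => T * (1 - F σ s x / F σ (2 * s) x)) σ := i4.const_mul T
  have i3 : Integrable (fun x => 2 / Real.sqrt T * (F σ (2 * s) x / F σ s x)) σ :=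
    hint.const_mul _
  have i5 : Integrable (fun x => T * (1 - F σ s x / F σ (2 * s) x) +
      2 / Real.sqrt T * (F σ (2 * s) x / F σ s x)) σ := i2.add i3
  have key : ∫ x, Real.log (F σ (2 * s) x) ∂σ ≤ ∫ x, (Real.log (F σ s x) +
      (T * (1 - F σ s x / F σ (2 * s) x) + 2 / Real.sqrt T * (F σ (2 * s) x / F σ s x))) ∂σ := by
    apply integral_mono_ae (integrable_logF (by positivity))
    · exact i1.add i5
    · filter_upwards [hae] with x hx
      have hpos : 0 < F σ s x := by linarith
      have hle := F_mono σ (show s ≤ 2 * s by linarith) x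
      have hpos2 : 0 < F σ (2 * s) x := by linarith
      have h1 : 1 ≤ F σ (2 * s) x / F σ s x := by rwa [one_le_div hpos]
      have h2 := log_ineq h1 hT
      rw [Real.log_div hpos2.ne' hpos.ne', one_div_div] at h2
      linarith
  refine le_trans key ?_
  rw [integral_add i1 i5, integral_add i2 i3, integral_const_mul, integral_const_mul,
    integral_sub (integrable_const 1) hint2]
  simp only [integral_const, probReal_univ, smul_eq_mul, mul_one]
  have h6 : T * (1 - ∫ x, F σ s x / F σ (2 * s) x ∂σ) ≤ T * η :=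
    mul_le_mul_of_nonneg_left (by linarith) hT0.le
  have h7 : 2 / Real.sqrt T * ∫ x, F σ (2 * s) x / F σ s x ∂σ ≤ 10 / Real.sqrt T := by
    calc 2 / Real.sqrt T * ∫ x, F σ (2 * s) x / F σ s x ∂σ ≤ 2 / Real.sqrt T * 5 :=
          mul_le_mul_of_nonneg_left h5 (by positivity)
      _ = 10 / Real.sqrt T := by ring
  linarith

/-- Many steps. -/
lemma entropy_steps {r : ℝ} (hr : 0 < r) {η T : ℝ} (hT : 1 ≤ T)
    (hη : ∀ s, 0 < s → 2 * s ≤ r → 1 - η ≤ ∫ x, F σ s x / F σ (2 * s) x ∂σ) (M : ℕ) :
    ∫ x, Real.log (F σ r x) ∂σ ≤ ∫ x, Real.log (F σ (r / 2 ^ M) x) ∂σ +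
      M * (T * η + 10 / Real.sqrt T) := by
  induction M with
  | zero => simp
  | succ M ih =>
    have h1 : 2 * (r / 2 ^ (M + 1)) = r / 2 ^ M := by
      rw [pow_succ]
      field_simp
    have h2 := entropy_step (σ := σ) (s := r / 2 ^ (M + 1)) (by positivity) hT
      (hη _ (by positivity) (by
        rw [h1]
        exact div_le_self hr.le (one_le_pow₀ (by norm_num))))
    rw [h1] at h2
    push_cast
    linarith

/-- Jensen's inequality. -/
lemma jensen {r : ℝ} (hr : 0 < r) :
    ∫ x, Real.log (F σ r x) ∂σ ≤ Real.log (∫ x, F σ r x ∂σ) := by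
  obtain ⟨m, hm, hae⟩ := F_pos σ hr
  have hint : Integrable (F σ r) σ := by
    refine Integrable.of_bound (C := 1) (measurable_F σ _).aestronglyMeasurable ?_
    refine Eventually.of_forall fun x => ?_
    rw [Real.norm_of_nonneg (F_nonneg σ _ _)]
    exact F_le_one σ _ _
  obtain ⟨a, ha⟩ : ∃ a : ℝ, a = ∫ x, F σ r x ∂σ := ⟨_, rfl⟩
  rw [← ha]
  have ha0 : 0 < a := by
    rw [ha]
    have h1 : ∫ _, m ∂σ ≤ ∫ x, F σ r x ∂σ := integral_mono_ae (integrable_const m) hint hae
    simp only [integral_const, probReal_univ, smul_eq_mul, one_mul] at h1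
    linarith
  have i1 : Integrable (fun _ : UnitAddCircle => Real.log a - 1) σ := integrable_const _
  have i2 : Integrable (fun x => F σ r x / a) σ := hint.div_const a
  have key : ∫ x, Real.log (F σ r x) ∂σ ≤ ∫ x, ((Real.log a - 1) + F σ r x / a) ∂σ := by
    apply integral_mono_ae (integrable_logF hr)
    · exact i1.add i2
    · filter_upwards [hae] with x hx
      have hpos : 0 < F σ r x := by linarith
      have h1 := Real.log_le_sub_one_of_pos (show 0 < F σ r x / a by positivity)
      rw [Real.log_div hpos.ne' ha0.ne'] at h1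
      linarith
  refine le_trans key ?_
  rw [integral_add i1 i2, integral_div, ← ha, div_self ha0.ne']
  simp

/-- **A measure whose mean mass ratios tend to one has no positive correlation dimension, even
along a sequence of scales.** -/
theorem no_dim {δ : ℝ} (hδ : 0 < δ)
    (hη : ∀ η : ℝ, 0 < η → ∃ r : ℝ, 0 < r ∧ ∀ s, 0 < s → 2 * s ≤ r →
      1 - η ≤ ∫ x, F σ s x / F σ (2 * s) x ∂σ)
    (hsmall : ∀ ε : ℝ, 0 < ε → ∃ ρ : ℝ, 0 < ρ ∧ ρ < ε ∧ ∫ x, F σ ρ x ∂σ ≤ ρ ^ δ) : False := by
  have hl2 : 0.6931471803 < Real.log 2 := Real.log_two_gt_d9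
  have hl2' : 0 < Real.log 2 := by linarith
  -- the constants
  set T : ℝ := max 1 ((40 / δ) ^ 2) with hTdef
  have hT : 1 ≤ T := le_max_left _ _
  have hT0 : 0 < T := by linarith
  have hsT : 40 / δ ≤ Real.sqrt T := by
    apply Real.le_sqrt_of_sq_le
    exact le_max_right _ _
  have hsT0 : 0 < Real.sqrt T := Real.sqrt_pos.mpr hT0
  have h10 : 10 / Real.sqrt T ≤ δ / 4 := by
    rw [div_le_iff₀ hsT0]
    calc (10 : ℝ) = δ / 4 * (40 / δ) := by field_simp; norm_num
      _ ≤ δ / 4 * Real.sqrt T := mul_le_mul_of_nonneg_left hsT (by positivity)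
  set η : ℝ := δ / (16 * T) with hηdef
  have hη0 : 0 < η := by positivity
  have hTη : T * η = δ / 16 := by
    rw [hηdef]; field_simp
  obtain ⟨r', hr', hstep'⟩ := hη η hη0
  set r := min r' 1 with hr
  have hr0 : 0 < r := lt_min hr' one_pos
  have hr1 : r ≤ 1 := min_le_right _ _
  have hstep : ∀ s, 0 < s → 2 * s ≤ r → 1 - η ≤ ∫ x, F σ s x / F σ (2 * s) x ∂σ :=
    fun s hs h => hstep' s hs (le_trans h (min_le_left _ _))
  set E := T * η + 10 / Real.sqrt T with hE
  have hE1 : E ≤ δ * (5 / 16) := by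
    rw [hE, hTη]
    linarith
  have hE0 : 0 ≤ E := by
    rw [hE, hTη]
    positivity
  set c₀ := -∫ x, Real.log (F σ r x) ∂σ with hc₀
  -- the scale
  have hc : 0 < min r (Real.exp (-(20 * (|c₀| + E) / δ + 1))) := lt_min hr0 (Real.exp_pos _)
  obtain ⟨ρ, hρ0, hρ1, hρ2⟩ := hsmall _ hc
  have hρr : ρ < r := lt_of_lt_of_le hρ1 (min_le_left _ _)
  have hρe : ρ < Real.exp (-(20 * (|c₀| + E) / δ + 1)) := lt_of_lt_of_le hρ1 (min_le_right _ _)
  obtain ⟨M, hM1, hM2⟩ := exists_nat_pow_near (show 1 ≤ r / ρ by rw [one_le_div hρ0]; exact hρr.le)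
    (show (1 : ℝ) < 2 by norm_num)
  have hrM : r / 2 ^ (M + 1) ≤ ρ := by
    rw [div_le_iff₀ (by positivity)]
    rw [div_lt_iff₀ hρ0] at hM2
    linarith
  have hsteps := entropy_steps (σ := σ) hr0 hT hstep (M + 1)
  have hmono : ∫ x, Real.log (F σ (r / 2 ^ (M + 1)) x) ∂σ ≤ ∫ x, Real.log (F σ ρ x) ∂σ := by
    obtain ⟨m, hm, hae⟩ := F_pos σ (show 0 < r / 2 ^ (M + 1) by positivity)
    apply integral_mono_ae (integrable_logF (by positivity)) (integrable_logF hρ0)
    filter_upwards [hae] with x hx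
    exact Real.log_le_log (by linarith) (F_mono σ hrM x)
  have hj := jensen (σ := σ) hρ0
  have hpos : 0 < ∫ x, F σ ρ x ∂σ := by
    by_contra hcon
    have h0 : ∫ x, F σ ρ x ∂σ ≤ 0 := not_lt.mp hcon
    obtain ⟨m, hm, hae⟩ := F_pos σ hρ0
    have hint : Integrable (F σ ρ) σ := by
      refine Integrable.of_bound (C := 1) (measurable_F σ _).aestronglyMeasurable ?_
      refine Eventually.of_forall fun x => ?_
      rw [Real.norm_of_nonneg (F_nonneg σ _ _)]
      exact F_le_one σ _ _
    have h1 : ∫ _, m ∂σ ≤ ∫ x, F σ ρ x ∂σ := integral_mono_ae (integrable_const m) hint hae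
    simp only [integral_const, probReal_univ, smul_eq_mul, one_mul] at h1
    linarith
  have hlog : Real.log (∫ x, F σ ρ x ∂σ) ≤ δ * Real.log ρ := by
    rw [← Real.log_rpow hρ0]
    exact Real.log_le_log hpos hρ2
  have hMlog : M * Real.log 2 ≤ -Real.log ρ := by
    have h1 : Real.log (2 ^ M) ≤ Real.log (r / ρ) := Real.log_le_log (by positivity) hM1
    rw [Real.log_pow, Real.log_div hr0.ne' hρ0.ne'] at h1
    have h2 : Real.log r ≤ 0 := Real.log_nonpos hr0.le hr1
    linarith
  set L := -Real.log ρ with hL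
  have hLbig : 20 * (|c₀| + E) / δ + 1 ≤ L := by
    have h1 : Real.log ρ ≤ -(20 * (|c₀| + E) / δ + 1) := by
      rw [Real.log_le_iff_le_exp hρ0]
      exact hρe.le
    linarith
  have hM3 : (M : ℝ) * E ≤ δ * (5 / 16) * (L / 0.6931471803) := by
    have h1 : (M : ℝ) ≤ L / 0.6931471803 := by
      rw [le_div_iff₀ (by norm_num)]
      have : (0 : ℝ) ≤ M := Nat.cast_nonneg _
      nlinarith
    calc (M : ℝ) * E ≤ M * (δ * (5 / 16)) := mul_le_mul_of_nonneg_left hE1 (Nat.cast_nonneg _)
      _ ≤ L / 0.6931471803 * (δ * (5 / 16)) := mul_le_mul_of_nonneg_right h1 (by positivity)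
      _ = _ := by ring
  have hfin : δ * L ≤ |c₀| + E + δ * (5 / 16) * (L / 0.6931471803) := by
    have h1 : -c₀ ≤ -(δ * L) + ((M + 1 : ℕ) : ℝ) * E := by
      have h2 : Real.log ρ = -L := by rw [hL]; ring
      rw [h2] at hlog
      have h3 : -c₀ = ∫ x, Real.log (F σ r x) ∂σ := by rw [hc₀]; ring
      rw [h3]
      linarith
    push_cast at h1
    have h4 := le_abs_self c₀
    linarith
  have hL2 : 20 * (|c₀| + E) ≤ δ * L := by
    have h1 : 20 * (|c₀| + E) / δ ≤ L := by linarith
    rw [div_le_iff₀ hδ] at h1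
    linarith
  have hδL : 0 < δ * L := by
    have h1 : 0 ≤ 20 * (|c₀| + E) / δ := by positivity
    have : 0 < L := by linarith
    positivity
  have h5 : δ * (5 / 16) * (L / 0.6931471803) ≤ δ * L * 0.46 := by
    have : δ * (5 / 16) * (L / 0.6931471803) = δ * L * (5 / 16 / 0.6931471803) := by ring
    rw [this]
    apply mul_le_mul_of_nonneg_left _ hδL.le
    norm_num
  linarith

end Pool.Agent.H237.Rare
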