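import Mathlib
import Pool.Agent.H237.Sieve.Pack
import Pool.Agent.H237.Gap.Growth

/-!
# Small balls for measures invariant under a thin set of multipliers, dense at one scale
-/

namespace Pool.Agent.H237.Rare

open MeasureTheory Set Filter Topology Pool.Agent.H237.Primes Pool.Agent.H237.Gap
  Pool.Agent.H237.Sieve

/-- `A` consists of `k ≥ y ^ δ` pairwise coprime integers in `[2, y]`. -/
structure Den (δ : ℝ) (A : Finset ℕ) (y : ℕ) : Prop where
  two : ∀ p ∈ A, 2 ≤ p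
  le : ∀ p ∈ A, p ≤ y
  co : (A : Set ℕ).Pairwise Nat.Coprime
  lg : δ * Real.log y ≤ Real.log A.card
  big : Real.exp 20 ≤ A.card

variable {δ : ℝ} {A : Finset ℕ} {y : ℕ} {ν : Measure UnitAddCircle} [IsProbabilityMeasure ν]

lemma Den.card_le (h : Den δ A y) : A.card ≤ y := by
  calc A.card ≤ (Finset.Icc 1 y).card := by
        apply Finset.card_le_card
        intro p hp
        rw [Finset.mem_Icc]
        exact ⟨by have := h.two p hp; omega, h.le p hp⟩
    _ = y := by simp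

/-- One small step. -/
lemma step1 (hδ : 0 < δ) (hA : Den δ A y) (hinv : ∀ p ∈ A, Inv ν p) {H : ℝ}
    (hH : Real.log (2 * y) ≤ H) :
    G ν H - G ν ((1 + δ / 4) * H) ≤ 2 / A.card := by
  classical
  set k := A.card with hk
  have hkR : Real.exp 20 ≤ k := hA.big
  have hk0 : (0 : ℝ) < k := lt_of_lt_of_le (Real.exp_pos _) hkR
  have hky : (k : ℝ) ≤ y := by exact_mod_cast hA.card_le
  have hy0 : (0 : ℝ) < y := by linarith
  set ℓ := Real.log y with hℓ
  have hℓ20 : 20 ≤ ℓ := by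
    rw [hℓ, Real.le_log_iff_exp_le hy0]
    linarith
  have hκ20 : 20 ≤ Real.log k := by
    rw [Real.le_log_iff_exp_le hk0]
    exact hkR
  have hl2' : Real.log 2 < 0.6931471808 := Real.log_two_lt_d9
  have hl0 : 0 < Real.log 2 := Real.log_pos (by norm_num)
  rw [Real.log_mul (by norm_num) hy0.ne'] at hH
  have hH0 : 0 < H := by linarith
  set l := ⌊(H - Real.log 2) / ℓ⌋₊ with hl
  have hx1 : 1 ≤ (H - Real.log 2) / ℓ := by
    rw [le_div_iff₀ (by linarith)]
    linarith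
  have hl1 : 1 ≤ l := by
    rw [hl, Nat.one_le_floor_iff]
    exact hx1
  have hl1R : (1 : ℝ) ≤ l := by exact_mod_cast hl1
  have hlx : (l : ℝ) ≤ (H - Real.log 2) / ℓ := Nat.floor_le (by linarith)
  have hlx2 : (H - Real.log 2) / ℓ < l + 1 := Nat.lt_floor_add_one _
  have hlℓ : l * ℓ ≤ H - Real.log 2 := by
    rwa [le_div_iff₀ (by linarith)] at hlx
  have hlℓ2 : (H - Real.log 2) / 2 ≤ l * ℓ := by
    rw [div_lt_iff₀ (by linarith)] at hlx2
    nlinarith
  -- the large elements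
  set A' := A.filter (fun p : ℕ => (k : ℝ) / 2 ≤ (p : ℝ)) with hA'
  have hcard : (k : ℝ) / 2 ≤ A'.card := by
    have h1 : (A.filter (fun p : ℕ => ¬ (k : ℝ) / 2 ≤ (p : ℝ))).card + A'.card = k := by
      rw [hA', add_comm]
      exact Finset.card_filter_add_card_filter_not _
    have h2 : ((A.filter (fun p : ℕ => ¬ (k : ℝ) / 2 ≤ (p : ℝ))).card : ℝ) ≤ k / 2 := by
      have h3 : (A.filter (fun p : ℕ => ¬ (k : ℝ) / 2 ≤ (p : ℝ))).card ≤ (Finset.Icc 1 ⌊(k : ℝ) / 2⌋₊).card := by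
        apply Finset.card_le_card
        intro p hp
        rw [Finset.mem_filter, not_le] at hp
        rw [Finset.mem_Icc]
        refine ⟨by have := hA.two p hp.1; omega, ?_⟩
        exact Nat.le_floor hp.2.le
      rw [Nat.card_Icc, Nat.add_sub_cancel] at h3
      calc ((A.filter (fun p : ℕ => ¬ (k : ℝ) / 2 ≤ (p : ℝ))).card : ℝ) ≤ (⌊(k : ℝ) / 2⌋₊ : ℝ) := by
            exact_mod_cast h3
        _ ≤ k / 2 := Nat.floor_le (by positivity)
    have h3 : ((A.filter (fun p : ℕ => ¬ (k : ℝ) / 2 ≤ (p : ℝ))).card : ℝ) + A'.card = k := by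
      exact_mod_cast h1
    linarith
  have hmem : ∀ p : A', (p : ℕ) ∈ A := fun p => (Finset.mem_filter.mp p.2).1
  have key := H237.Digits.single ν (ι := A') (u := fun p => (p : ℕ) ^ l)
    (fun p => pow_pos (by have := hA.two _ (hmem p); omega) _)
    (fun p q hpq => Nat.Coprime.pow _ _ (hA.co (hmem p) (hmem q) (fun h => hpq (Subtype.ext h))))
    (fun p => (hinv _ (hmem p)).pow _)
    (r := Real.exp (-H)) (v := Real.exp (δ / 4 * H)) (Real.exp_pos _) ?_ (Real.exp_pos _) ?_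
  · rw [Fintype.card_coe, ← Real.exp_sub] at key
    have e : -H - δ / 4 * H = -((1 + δ / 4) * H) := by ring
    rw [e] at key
    have h1 : 0 ≤ G ν H - G ν ((1 + δ / 4) * H) := by
      rw [sub_nonneg]
      exact G_anti (by nlinarith)
    have h2 : (k : ℝ) / 2 * (G ν H - G ν ((1 + δ / 4) * H)) ≤ 1 :=
      le_trans (mul_le_mul_of_nonneg_right hcard h1) key
    rw [le_div_iff₀ hk0]
    linarith
  · intro p
    have h1 : ((p : ℕ) : ℝ) ≤ y := by exact_mod_cast hA.le _ (hmem p)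
    have h2 : (((p : ℕ) ^ l : ℕ) : ℝ) ≤ Real.exp (l * ℓ) := by
      push_cast
      rw [Real.exp_nat_mul, Real.exp_log hy0]
      exact pow_le_pow_left₀ (by positivity) h1 l
    have h3 : Real.exp (l * ℓ) ≤ Real.exp H / 2 := by
      rw [show Real.exp H / 2 = Real.exp (H - Real.log 2) by
        rw [Real.exp_sub, Real.exp_log (by norm_num)]]
      exact Real.exp_le_exp.mpr hlℓ
    have h4 : Real.exp (-H) * Real.exp H = 1 := by
      rw [← Real.exp_add]; simp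
    calc 2 * Real.exp (-H) * (((p : ℕ) ^ l : ℕ) : ℝ) ≤ 2 * Real.exp (-H) * (Real.exp H / 2) :=
          mul_le_mul_of_nonneg_left (le_trans h2 h3) (by positivity)
      _ = Real.exp (-H) * Real.exp H := by ring
      _ ≤ 1 := h4.le
  · intro p
    have h1 : (k : ℝ) / 2 ≤ ((p : ℕ) : ℝ) := (Finset.mem_filter.mp p.2).2
    have hk2 : 0 < (k : ℝ) / 2 := by positivity
    have h2 : Real.exp (l * Real.log (k / 2)) ≤ (((p : ℕ) ^ l : ℕ) : ℝ) := by
      push_cast
      rw [Real.exp_nat_mul, Real.exp_log hk2]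
      exact pow_le_pow_left₀ hk2.le h1 l
    refine le_trans (Real.exp_le_exp.mpr ?_) h2
    rw [Real.log_div hk0.ne' (by norm_num)]
    have h5 : δ * ℓ * 0.93 ≤ Real.log k - Real.log 2 := by
      have := hA.lg
      linarith
    have h6 : (l : ℝ) * (δ * ℓ * 0.93) ≤ l * (Real.log k - Real.log 2) :=
      mul_le_mul_of_nonneg_left h5 (by linarith)
    have h7 : δ * ((H - Real.log 2) / 2 * 0.93) ≤ (l : ℝ) * (δ * ℓ * 0.93) := by
      have : δ * ((H - Real.log 2) / 2) ≤ δ * (l * ℓ) := mul_le_mul_of_nonneg_left hlℓ2 hδ.le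
      nlinarith
    have h8 : δ * (H / 4) ≤ δ * ((H - Real.log 2) / 2 * 0.93) :=
      mul_le_mul_of_nonneg_left (by linarith) hδ.le
    linarith

lemma stepi (hδ : 0 < δ) (hA : Den δ A y) (hinv : ∀ p ∈ A, Inv ν p) {H : ℝ}
    (hH : Real.log (2 * y) ≤ H) (hH0 : 0 ≤ H) (n : ℕ) :
    G ν H - G ν ((1 + δ / 4) ^ n * H) ≤ 2 * n / A.card := by
  induction n with
  | zero => simp
  | succ n ih =>
    have h0 : (1 : ℝ) ≤ (1 + δ / 4) ^ n := one_le_pow₀ (by linarith)
    have h1 : H ≤ (1 + δ / 4) ^ n * H := le_mul_of_one_le_left hH0 h0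
    have h2 := step1 hδ hA hinv (H := (1 + δ / 4) ^ n * H) (by linarith)
    have h3 : (1 + δ / 4) * ((1 + δ / 4) ^ n * H) = (1 + δ / 4) ^ (n + 1) * H := by ring
    rw [h3] at h2
    have h4 : 2 * ((n + 1 : ℕ) : ℝ) / A.card = 2 * n / A.card + 2 / A.card := by
      push_cast; ring
    linarith

/-- The constant of `step2`. -/
noncomputable def DD (δ : ℝ) : ℝ := 2 * ⌈1 / δ⌉₊

lemma DD_nonneg (δ : ℝ) : 0 ≤ DD δ := by
  unfold DD
  positivity

lemma step2 (hδ : 0 < δ) (hA : Den δ A y) (hinv : ∀ p ∈ A, Inv ν p) {H : ℝ}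
    (hH : Real.log (2 * y) ≤ H) (hH0 : 0 ≤ H) : G ν H - G ν (5 / 4 * H) ≤ DD δ / A.card := by
  have h1 := stepi hδ hA hinv hH hH0 ⌈1 / δ⌉₊
  have h2 : (5 / 4 : ℝ) ≤ (1 + δ / 4) ^ ⌈1 / δ⌉₊ := by
    have h3 := one_add_mul_le_pow (show (-2 : ℝ) ≤ δ / 4 by linarith) ⌈1 / δ⌉₊
    have h4 : 1 / δ ≤ (⌈1 / δ⌉₊ : ℝ) := Nat.le_ceil _
    have h5 : 1 ≤ (⌈1 / δ⌉₊ : ℝ) * δ := by
      rwa [div_le_iff₀ hδ] at h4
    linarith
  have h3 : G ν ((1 + δ / 4) ^ ⌈1 / δ⌉₊ * H) ≤ G ν (5 / 4 * H) :=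
    G_anti (mul_le_mul_of_nonneg_right h2 hH0)
  unfold DD
  linarith

lemma stepn (hδ : 0 < δ) (hA : Den δ A y) (hinv : ∀ p ∈ A, Inv ν p) {J : ℕ}
    (hJ : Real.log (2 * y) ≤ (5 / 4 : ℝ) ^ J)
    (n : ℕ) : b ν J - b ν (J + n) ≤ DD δ * n / A.card := by
  induction n with
  | zero => simp
  | succ n ih =>
    have h1 : (5 / 4 : ℝ) ^ J ≤ (5 / 4) ^ (J + n) := pow_le_pow_right₀ (by norm_num) (by omega)
    have h2 := step2 hδ hA hinv (H := (5 / 4 : ℝ) ^ (J + n)) (by linarith) (by positivity)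
    have h3 : b ν (J + n) - b ν (J + (n + 1)) = G ν ((5 / 4) ^ (J + n)) -
        G ν (5 / 4 * (5 / 4) ^ (J + n)) := by
      rw [b_eq_G, ← add_assoc, pow_succ (5 / 4 : ℝ) (J + n), mul_comm]
    have h4 : DD δ * ((n + 1 : ℕ) : ℝ) / A.card = DD δ * n / A.card + DD δ / A.card := by
      push_cast; ring
    linarith

/-- The constants for the last scales. -/
structure Good (δ : ℝ) (j₀ k : ℕ) : Prop where
  big : Real.exp 20 ≤ k
  kK : j₀ ≤ ⌈5 * Real.exp (1 / 1000 * (k : ℝ))⌉₊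
  err : (⌈5 * Real.exp (1 / 1000 * (k : ℝ))⌉₊ : ℝ) * (1 / 2) ^ (k / 256) +
    1 / (⌈5 * Real.exp (1 / 1000 * (k : ℝ))⌉₊ : ℝ) ≤ 2 / k
  last : (17 * (6 + 4 * DD δ) + 5 * DD δ * (3 + Real.log (Real.log k)) + DD δ) / k ≤
    1 / Real.sqrt k

lemma eventually_good (hδ : 0 < δ) (j₀ : ℕ) : ∀ᶠ k : ℕ in atTop, Good δ j₀ k := by
  have e0 : ∀ᶠ z : ℝ in atTop, (17 * (6 + 4 * DD δ) + 5 * DD δ * (3 + Real.log (Real.log z)) +
      DD δ) / z ≤ 1 / Real.sqrt z := by
    have hD := DD_nonneg δ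
    have h1 : ∀ᶠ z : ℝ in atTop, Real.log z ≤ z ^ (1 / 4 : ℝ) := by
      have := isLittleO_log_rpow_atTop (show (0 : ℝ) < 1 / 4 by norm_num)
      have h2 := this.bound (show (0 : ℝ) < 1 by norm_num)
      filter_upwards [h2, eventually_ge_atTop (1 : ℝ)] with z hz hz1
      rw [one_mul, Real.norm_of_nonneg (Real.log_nonneg hz1),
        Real.norm_of_nonneg (by positivity)] at hz
      exact hz
    have h2 : ∀ᶠ z : ℝ in atTop, 17 * (6 + 4 * DD δ) + 5 * DD δ * 3 + DD δ + 5 * DD δ ≤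
        z ^ (1 / 4 : ℝ) :=
      (tendsto_rpow_atTop (show (0 : ℝ) < 1 / 4 by norm_num)).eventually (eventually_ge_atTop _)
    filter_upwards [h1, h2, eventually_ge_atTop (Real.exp 1)] with z hz1 hz2 hz3
    have hz0 : 0 < z := lt_of_lt_of_le (Real.exp_pos _) hz3
    have hlz : 1 ≤ Real.log z := by rwa [Real.le_log_iff_exp_le hz0]
    have h3 : Real.log (Real.log z) ≤ Real.log z := by
      have := Real.log_le_sub_one_of_pos (show 0 < Real.log z by linarith)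
      linarith
    set w := z ^ (1 / 4 : ℝ) with hw
    have hw1 : 1 ≤ w := le_trans hlz hz1
    have hw2 : w * w = Real.sqrt z := by
      rw [hw, ← Real.rpow_add hz0, Real.sqrt_eq_rpow]
      norm_num
    have hs : Real.sqrt z * Real.sqrt z = z := Real.mul_self_sqrt hz0.le
    have hs0 : 0 < Real.sqrt z := Real.sqrt_pos.mpr hz0
    rw [div_le_div_iff₀ hz0 hs0, one_mul]
    calc (17 * (6 + 4 * DD δ) + 5 * DD δ * (3 + Real.log (Real.log z)) + DD δ) * Real.sqrt z ≤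
          (w * w) * Real.sqrt z := by
          apply mul_le_mul_of_nonneg_right _ hs0.le
          have h5 : 5 * DD δ * (3 + Real.log (Real.log z)) ≤ 5 * DD δ * (3 + w) :=
            mul_le_mul_of_nonneg_left (by linarith) (by positivity)
          nlinarith
      _ = z := by rw [hw2, hs]
  filter_upwards [eventually_goodk, tendsto_natCast_atTop_atTop.eventually e0,
    eventually_ge_atTop j₀] with k h1 h2 h3
  refine ⟨h1.big, ?_, ?_, h2⟩
  · have h4 : (k : ℝ) ≤ ⌈5 * Real.exp (1 / 1000 * (k : ℝ))⌉₊ := by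
      have h5 : 5 * Real.exp (1 / 1000 * (k : ℝ)) ≤ ⌈5 * Real.exp (1 / 1000 * (k : ℝ))⌉₊ :=
        Nat.le_ceil _
      have := h1.kK
      have := Real.exp_pos (1 / 1000 * (k : ℝ))
      linarith
    have h5 : k ≤ ⌈5 * Real.exp (1 / 1000 * (k : ℝ))⌉₊ := by exact_mod_cast h4
    omega
  · refine le_trans ?_ h1.err
    have h4 : (0 : ℝ) ≤ (⌈5 * Real.exp (1 / 1000 * (k : ℝ))⌉₊ : ℝ) * (1 / 2) ^ (k / 256) := by
      positivity
    linarith

end Pool.Agent.H237.Rare
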