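import Mathlib
import Pool.Agent.H237.Rare.Chain

/-!
# The mass of a small punctured ball at a dense scale
-/

namespace Pool.Agent.H237.Rare

open MeasureTheory Set Filter Topology Pool.Agent.H237.Primes Pool.Agent.H237.Gap
  Pool.Agent.H237.Sieve

lemma half_mm_le (j : ℕ) : (1 / 2 : ℝ) ^ mm j ≤ 1 / ((j : ℝ) + 1) ^ 2 := by
  unfold mm
  rw [mul_comm, pow_mul]
  have h2 : j + 1 ≤ 2 ^ Nat.clog 2 (j + 1) := Nat.le_pow_clog (by norm_num) _
  have h3 : ((j : ℝ) + 1) ≤ 2 ^ Nat.clog 2 (j + 1) := by exact_mod_cast h2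
  rw [one_div_pow, one_div_pow]
  apply one_div_le_one_div_of_le (by positivity)
  exact pow_le_pow_left₀ (by positivity) h3 2

lemma sum_e {k : ℝ} (hk : 0 < k) {β : ℝ} (hβ : 0 ≤ β) (J₁ K₀ : ℕ) (hK : 1 ≤ K₀) (n : ℕ) :
    ∑ i ∈ Finset.range n, (if J₁ + i < K₀ then 2 / k * (1 / 2 : ℝ) ^ i + β else
      (1 / 2 : ℝ) ^ mm (J₁ + i)) ≤
      4 / k * (1 - (1 / 2 : ℝ) ^ n) + β * (min n K₀ : ℕ) +
        (1 / (K₀ : ℝ) - 1 / ((max (J₁ + n) K₀ : ℕ) : ℝ)) := by
  induction n with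
  | zero =>
    simp only [Finset.range_zero, Finset.sum_empty, pow_zero, sub_self, mul_zero, zero_add,
      add_zero, Nat.zero_min, Nat.cast_zero]
    rw [sub_nonneg]
    apply one_div_le_one_div_of_le (by exact_mod_cast hK)
    exact_mod_cast le_max_right _ _
  | succ n ih =>
    rw [Finset.sum_range_succ]
    split_ifs with h
    · have h1 : max (J₁ + n) K₀ = K₀ := max_eq_right (by omega)
      have h2 : max (J₁ + (n + 1)) K₀ = K₀ := max_eq_right (by omega)
      have h3 : min n K₀ = n := min_eq_left (by omega)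
      have h4 : min (n + 1) K₀ = n + 1 := min_eq_left (by omega)
      rw [h1, h3] at ih
      rw [h2, h4]
      push_cast
      have h5 : 4 / k * (1 - (1 / 2 : ℝ) ^ (n + 1)) = 4 / k * (1 - (1 / 2 : ℝ) ^ n) +
          2 / k * (1 / 2 : ℝ) ^ n := by
        rw [pow_succ]; ring
      rw [h5]
      linarith
    · have h1 : max (J₁ + n) K₀ = J₁ + n := max_eq_left (by omega)
      have h2 : max (J₁ + (n + 1)) K₀ = J₁ + n + 1 := by
        rw [max_eq_left (by omega)]; ring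
      rw [h1] at ih
      rw [h2]
      have h3 : ((min n K₀ : ℕ) : ℝ) ≤ ((min (n + 1) K₀ : ℕ) : ℝ) := by
        exact_mod_cast min_le_min_right _ (by omega)
      have h4 : β * ((min n K₀ : ℕ) : ℝ) ≤ β * ((min (n + 1) K₀ : ℕ) : ℝ) :=
        mul_le_mul_of_nonneg_left h3 hβ
      have h5 : 4 / k * (1 - (1 / 2 : ℝ) ^ n) ≤ 4 / k * (1 - (1 / 2 : ℝ) ^ (n + 1)) := by
        apply mul_le_mul_of_nonneg_left _ (by positivity)
        have : (1 / 2 : ℝ) ^ (n + 1) ≤ (1 / 2) ^ n :=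
          pow_le_pow_of_le_one (by norm_num) (by norm_num) (by omega)
        linarith
      have hj1 : 1 ≤ J₁ + n := by omega
      have h6 := half_mm_le (J₁ + n)
      have h7 : (0 : ℝ) < ((J₁ + n : ℕ) : ℝ) := by exact_mod_cast hj1
      have h8 : 1 / (((J₁ + n : ℕ) : ℝ) + 1) ^ 2 ≤ 1 / ((J₁ + n : ℕ) : ℝ) -
          1 / (((J₁ + n + 1 : ℕ)) : ℝ) := by
        rw [Nat.cast_add (J₁ + n) 1, Nat.cast_one, div_sub_div _ _ h7.ne' (by positivity)]
        rw [div_le_div_iff₀ (by positivity) (by positivity)]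
        nlinarith
      linarith

lemma punct (μ : Measure UnitAddCircle) [IsFiniteMeasure μ] {r : ℝ} (hr : 0 < r) :
    μ.real {x | x ≠ 0 ∧ ‖x‖ < r} = g μ r - μ.real {0} := by
  unfold g
  have h1 : {x : UnitAddCircle | ‖x‖ < r} = {0} ∪ {x | x ≠ 0 ∧ ‖x‖ < r} := by
    ext x
    simp only [mem_ofPred_eq, mem_union, mem_singleton_iff]
    by_cases h : x = 0
    · simp [h, hr]
    · simp [h]
  rw [h1, measureReal_union]
  · ring
  · rw [Set.disjoint_left]
    rintro x hx ⟨h, _⟩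
    exact h hx
  · have e : {x : UnitAddCircle | x ≠ 0 ∧ ‖x‖ < r} = {0}ᶜ ∩ {x | ‖x‖ < r} := by
      ext x; simp
    rw [e]
    apply (measurableSet_singleton 0).compl.inter
    have := measurableSet_lt 1 r
    simpa using this

lemma tail_core {P : Set ℕ} (hP2 : ∀ p ∈ P, 2 ≤ p) (hco : P.Pairwise Nat.Coprime)
    {j₀ : ℕ} (hj₀1 : 1 ≤ j₀)
    (hsets : ∀ j, j₀ ≤ j → ∃ s : Finset ℕ, (s : Set ℕ) ⊆ P ∧ s.card = 256 * mm j ∧
      ∀ p ∈ s, (p : ℝ) ≤ Real.exp ((5 / 4 : ℝ) ^ (j + 4) / 2 / (4 * mm j)))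
    {δ : ℝ} (hδ : 0 < δ) (A : Finset ℕ) (y : ℕ) (hAP : (A : Set ℕ) ⊆ P) (hAy : ∀ p ∈ A, p ≤ y)
    (hlg : δ * Real.log y ≤ Real.log A.card) (hgood : Good δ j₀ A.card)
    (ν : Measure UnitAddCircle) (hν : IsProbabilityMeasure ν) (hinvP : ∀ p ∈ P, Inv ν p) :
    ν.real {x | x ≠ 0 ∧ ‖x‖ < 1 / (2 * y)} ≤ 1 / Real.sqrt A.card := by
  obtain ⟨hbig, hkK, herr, hlast⟩ := hgood
  have hA : Den δ A y := ⟨fun p hp => hP2 p (hAP hp), hAy, hco.mono hAP, hlg, hbig⟩
  have hinv : ∀ p ∈ A, Inv ν p := fun p hp => hinvP p (hAP hp)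
  set k := A.card with hk
  have hk0 : (0 : ℝ) < k := lt_of_lt_of_le (Real.exp_pos _) hbig
  have hky : (k : ℝ) ≤ y := by exact_mod_cast hA.card_le
  have hy0 : (0 : ℝ) < y := by linarith
  set ℓ := Real.log y with hℓ
  set κ := Real.log k with hκ
  set D := DD δ with hD
  have hD0 : 0 ≤ D := DD_nonneg δ
  have hκ20 : 20 ≤ κ := by
    rw [hκ, Real.le_log_iff_exp_le hk0]
    exact hbig
  have hκℓ : κ ≤ ℓ := Real.log_le_log hk0 hky
  have hl2' : Real.log 2 < 0.6931471808 := Real.log_two_lt_d9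
  have hl2 : 0.6931471803 < Real.log 2 := Real.log_two_gt_d9
  have hlog54 : 1 / 5 ≤ Real.log (5 / 4) := by
    have := Real.one_sub_inv_le_log_of_pos (show (0 : ℝ) < 5 / 4 by norm_num)
    norm_num at this
    linarith
  have hlog2y : Real.log (2 * y) = Real.log 2 + ℓ := Real.log_mul (by norm_num) hy0.ne'
  set H₀ := Real.log (2 * y) with hH₀
  -- the first scale
  obtain ⟨J', hJ1, hJ2⟩ := exists_nat_pow_near (show 1 ≤ H₀ by linarith)
    (show (1 : ℝ) < 5 / 4 by norm_num)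
  set J₀ := J' + 1 with hJ₀
  have hJ0up : (5 / 4 : ℝ) ^ J₀ ≤ 5 / 4 * H₀ := by
    rw [hJ₀, pow_succ]
    linarith
  -- from `H₀` to `J₀`
  have hs0 : g ν (1 / (2 * y)) - G ν ((5 / 4) ^ J₀) ≤ D / k := by
    have h1 : g ν (1 / (2 * y)) = G ν H₀ := by
      unfold G
      rw [Real.exp_neg, Real.exp_log (by positivity), one_div]
    rw [h1]
    have h2 := step2 hδ hA hinv (H := H₀) le_rfl (by linarith)
    have h3 : G ν (5 / 4 * H₀) ≤ G ν ((5 / 4) ^ J₀) := G_anti hJ0up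
    linarith
  -- the second scale
  have hHH : 1 ≤ 16 * κ * ℓ := by nlinarith
  obtain ⟨J'', hJ3, hJ4⟩ := exists_nat_pow_near hHH (show (1 : ℝ) < 5 / 4 by norm_num)
  set J₁ := J'' + 1 with hJ₁
  have hJ1up : (5 / 4 : ℝ) ^ J₁ ≤ 20 * κ * ℓ := by
    rw [hJ₁, pow_succ]
    linarith
  have hJ01 : J₀ ≤ J₁ := by
    have h1 : (5 / 4 : ℝ) ^ J' < (5 / 4) ^ (J'' + 1) := by
      refine lt_of_le_of_lt hJ1 (lt_of_le_of_lt ?_ hJ4)
      nlinarith
    have h2 := (pow_lt_pow_iff_right₀ (show (1 : ℝ) < 5 / 4 by norm_num)).mp h1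
    omega
  obtain ⟨n, hn⟩ := Nat.exists_eq_add_of_le hJ01
  have hnle : (n : ℝ) ≤ 5 * (3 + Real.log κ) := by
    have h1 : (5 / 4 : ℝ) ^ J₀ * (5 / 4) ^ n ≤ 20 * κ * ℓ := by
      rw [← pow_add, ← hn]
      exact hJ1up
    have h2 : ℓ ≤ (5 / 4 : ℝ) ^ J₀ := by
      rw [hJ₀]
      linarith
    have hpn : (0 : ℝ) < (5 / 4) ^ n := by positivity
    have h3 : ℓ * (5 / 4) ^ n ≤ ℓ * (20 * κ) := by
      calc ℓ * (5 / 4 : ℝ) ^ n ≤ (5 / 4) ^ J₀ * (5 / 4) ^ n := mul_le_mul_of_nonneg_right h2 hpn.le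
        _ ≤ 20 * κ * ℓ := h1
        _ = ℓ * (20 * κ) := by ring
    have h4 : (5 / 4 : ℝ) ^ n ≤ 20 * κ := le_of_mul_le_mul_left h3 (by linarith)
    have h5 : n * Real.log (5 / 4) ≤ Real.log (20 * κ) := by
      rw [← Real.log_pow]
      exact Real.log_le_log hpn h4
    rw [Real.log_mul (by norm_num) (by linarith)] at h5
    have h6 : Real.log 20 ≤ 3 := by
      rw [Real.log_le_iff_le_exp (by norm_num)]
      have h7 : (2.7182818283 : ℝ) < Real.exp 1 := Real.exp_one_gt_d9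
      calc (20 : ℝ) ≤ 2.7182818283 ^ 3 := by norm_num
        _ ≤ Real.exp 1 ^ 3 := pow_le_pow_left₀ (by norm_num) h7.le 3
        _ = Real.exp 3 := by rw [← Real.exp_nat_mul]; norm_num
    nlinarith
  have hs1 : b ν J₀ - b ν J₁ ≤ 5 * D * (3 + Real.log κ) / k := by
    rw [hn]
    refine le_trans (stepn hδ hA hinv (by linarith) n) ?_
    apply div_le_div_of_nonneg_right _ hk0.le
    calc D * n ≤ D * (5 * (3 + Real.log κ)) := mul_le_mul_of_nonneg_left hnle hD0
      _ = 5 * D * (3 + Real.log κ) := by ring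
  have hδ' : b ν J₁ - b ν (J₁ + 4) ≤ 4 * D / k := by
    have h1 : H₀ ≤ (5 / 4 : ℝ) ^ J₁ := by
      have : (5 / 4 : ℝ) ^ J₀ ≤ (5 / 4) ^ J₁ := pow_le_pow_right₀ (by norm_num) hJ01
      linarith
    have h2 := stepn hδ hA hinv h1 4
    have e : 4 * D / (k : ℝ) = D * (4 : ℕ) / k := by push_cast; ring
    rw [e]
    exact h2
  set K₀ := ⌈5 * Real.exp (1 / 1000 * (k : ℝ))⌉₊ with hK₀
  set M := k / 256 with hM
  set β : ℝ := (1 / 2) ^ M with hβdef
  have hβ0 : 0 ≤ β := by positivity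
  have hK₀1 : 1 ≤ K₀ := by
    rw [hK₀, Nat.one_le_ceil_iff]
    positivity
  have hK0R : (0 : ℝ) < K₀ := by exact_mod_cast hK₀1
  have hk256 : 256 ≤ k := by
    have h2 : (2 : ℝ) ^ 20 ≤ Real.exp 20 := by
      have h3 : (2 : ℝ) ≤ Real.exp 1 := by
        have := Real.add_one_le_exp (1 : ℝ)
        linarith
      calc (2 : ℝ) ^ 20 ≤ Real.exp 1 ^ 20 := pow_le_pow_left₀ (by norm_num) h3 20
        _ = Real.exp 20 := by rw [← Real.exp_nat_mul]; norm_num
    have h3 : (256 : ℝ) ≤ k := by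
      norm_num at h2
      linarith
    exact_mod_cast h3
  have hM1 : 1 ≤ M := by omega
  set e : ℕ → ℝ := fun j => if j < K₀ then 2 / k * (1 / 2 : ℝ) ^ (j - J₁) + β else
    (1 / 2 : ℝ) ^ mm j with he
  have he0 : ∀ j, 0 ≤ e j := by
    intro j
    rw [he]
    dsimp only
    split_ifs <;> positivity
  have hes : Summable e := by
    rw [← summable_nat_add_iff K₀]
    have h1 : (fun j => e (j + K₀)) = fun j => (1 / 2 : ℝ) ^ mm (j + K₀) := by
      ext j
      rw [he]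
      dsimp only
      rw [if_neg (by omega)]
    rw [h1]
    exact (summable_nat_add_iff (f := fun j : ℕ => (1 / 2 : ℝ) ^ mm j) K₀).mpr summable_e
  have hE : ∑' i, e (J₁ + i) ≤ 6 / k := by
    apply Real.tsum_le_of_sum_range_le (fun i => he0 _)
    intro n
    have h1 : ∑ i ∈ Finset.range n, e (J₁ + i) = ∑ i ∈ Finset.range n,
        (if J₁ + i < K₀ then 2 / k * (1 / 2 : ℝ) ^ i + β else (1 / 2 : ℝ) ^ mm (J₁ + i)) := by
      apply Finset.sum_congr rfl
      intro i _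
      rw [he]
      dsimp only
      rw [Nat.add_sub_cancel_left]
    rw [h1]
    refine le_trans (sum_e hk0 hβ0 J₁ K₀ hK₀1 n) ?_
    have h2 : 4 / (k : ℝ) * (1 - (1 / 2 : ℝ) ^ n) ≤ 4 / k := by
      apply mul_le_of_le_one_right (by positivity)
      have : (0 : ℝ) ≤ (1 / 2) ^ n := by positivity
      linarith
    have h3 : β * ((min n K₀ : ℕ) : ℝ) ≤ K₀ * β := by
      rw [mul_comm]
      apply mul_le_mul_of_nonneg_right _ hβ0
      exact_mod_cast min_le_right _ _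
    have h4 : (0 : ℝ) ≤ 1 / ((max (J₁ + n) K₀ : ℕ) : ℝ) := by positivity
    have h5 : (6 : ℝ) / k = 4 / k + 2 / k := by ring
    rw [h5]
    linarith
  have hsteps : ∀ j, J₁ ≤ j → b ν (j + 4) - b ν (j + 5) ≤
      4 / 85 * (b ν j - b ν (j + 20)) + e j := by
    intro j hj
    rcases lt_or_ge j K₀ with hjK | hjK
    swap
    · have h1 : e j = (1 / 2 : ℝ) ^ mm j := by
        rw [he]
        dsimp only
        rw [if_neg (by omega)]
      rw [h1]
      obtain ⟨s, hsP, hsc, hsm⟩ := hsets j (by omega)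
      apply b_step ν (mm_pos (by omega)) s hsc (fun p hp => hP2 p (hsP hp)) (hco.mono hsP)
        (fun p hp => hinvP p (hsP hp)) (by omega)
      intro p hp
      have hp2 : (0 : ℝ) < p := by
        have := hP2 p (hsP hp)
        exact_mod_cast (by omega : 0 < p)
      rw [Real.log_le_iff_le_exp hp2]
      exact hsm p hp
    have h0 : e j = 2 / k * (1 / 2 : ℝ) ^ (j - J₁) + β := by
      rw [he]
      dsimp only
      rw [if_pos hjK]
    rw [h0]
    obtain ⟨i, rfl⟩ := Nat.exists_eq_add_of_le hj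
    rw [Nat.add_sub_cancel_left]
    have hp0 : (0 : ℝ) < (5 / 4) ^ (J₁ + i + 4) := by positivity
    have hj1 : 1 ≤ J₁ + i := by omega
    have hlogp : ∀ p ∈ A, Real.log p ≤ ℓ := by
      intro p hp
      have h1 : (0 : ℝ) < p := by exact_mod_cast (by have := hA.two p hp; omega : 0 < p)
      exact Real.log_le_log h1 (by exact_mod_cast hA.le p hp)
    set x := (5 / 4 : ℝ) ^ (J₁ + i + 4) / (8 * ℓ) with hx
    have hℓ0 : 0 < ℓ := by linarith
    have hx0 : 0 < x := by positivity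
    rcases le_or_gt ((k : ℝ) / 256) x with hc | hc
    · obtain ⟨s, hs1, hs2⟩ := Finset.exists_subset_card_eq (show 256 * M ≤ A.card by omega)
      have h1 := b_step ν hM1 s hs2 (fun p hp => hA.two p (hs1 hp))
        (hA.co.mono (by exact_mod_cast hs1)) (fun p hp => hinv p (hs1 hp)) hj1 (by
          intro p hp
          refine le_trans (hlogp p (hs1 hp)) ?_
          have hMR : (1 : ℝ) ≤ M := by exact_mod_cast hM1
          have hM2 : (M : ℝ) ≤ x := by
            refine le_trans ?_ hc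
            rw [hM]
            exact Nat.cast_div_le
          rw [hx, le_div_iff₀ (by linarith)] at hM2
          rw [div_div, le_div_iff₀ (by positivity)]
          linarith)
      have h2 : 0 ≤ 2 / (k : ℝ) * (1 / 2) ^ i := by positivity
      linarith
    · set m := ⌊x⌋₊ with hm
      have hxlow : 4 * κ * (1 + i / 4) ≤ x := by
        rw [hx, le_div_iff₀ (by linarith), add_assoc, pow_add (5 / 4 : ℝ) J₁ (i + 4),
          pow_add (5 / 4 : ℝ) i 4]
        have h1 : 1 + (i : ℝ) / 4 ≤ (5 / 4 : ℝ) ^ i := by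
          have := one_add_mul_le_pow (show (-2 : ℝ) ≤ 1 / 4 by norm_num) i
          norm_num at this ⊢
          linarith
        have h2 : 16 * κ * ℓ ≤ (5 / 4 : ℝ) ^ J₁ := hJ4.le
        have h3 : (0 : ℝ) ≤ 1 + (i : ℝ) / 4 := by positivity
        calc 4 * κ * (1 + (i : ℝ) / 4) * (8 * ℓ) = 16 * κ * ℓ * ((1 + (i : ℝ) / 4) * 2) := by ring
          _ ≤ (5 / 4 : ℝ) ^ J₁ * ((5 / 4 : ℝ) ^ i * (5 / 4) ^ 4) := by
              refine mul_le_mul h2 ?_ (by positivity) (by positivity)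
              refine mul_le_mul h1 ?_ (by norm_num) (by positivity)
              norm_num
      have hi0 : (0 : ℝ) ≤ (i : ℝ) := Nat.cast_nonneg i
      have hm1 : 1 ≤ m := by
        rw [hm, Nat.one_le_floor_iff]
        nlinarith
      have hmx : (m : ℝ) ≤ x := Nat.floor_le hx0.le
      have hmk : 256 * m ≤ A.card := by
        have h1 : (256 : ℝ) * m ≤ k := by linarith
        exact_mod_cast h1
      obtain ⟨s, hs1, hs2⟩ := Finset.exists_subset_card_eq hmk
      have h1 := b_step ν hm1 s hs2 (fun p hp => hA.two p (hs1 hp))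
        (hA.co.mono (by exact_mod_cast hs1)) (fun p hp => hinv p (hs1 hp)) hj1 (by
          intro p hp
          refine le_trans (hlogp p (hs1 hp)) ?_
          have hMR : (1 : ℝ) ≤ m := by exact_mod_cast hm1
          have hM2 := hmx
          rw [hx, le_div_iff₀ (by linarith)] at hM2
          rw [div_div, le_div_iff₀ (by positivity)]
          linarith)
      have h2 : (1 / 2 : ℝ) ^ m ≤ 2 / k * (1 / 2) ^ i := by
        have h3 : x - 1 ≤ m := by
          have := Nat.lt_floor_add_one x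
          linarith
        refine le_trans (half_pow_le h3) ?_
        have h4 : Real.exp (-(x * Real.log 2)) ≤ Real.exp (-(κ + i * Real.log 2)) := by
          apply Real.exp_le_exp.mpr
          apply neg_le_neg
          have h5 : 4 * κ * (1 + i / 4) * 0.6931471803 ≤ x * Real.log 2 :=
            mul_le_mul hxlow hl2.le (by norm_num) hx0.le
          nlinarith
        have h5 : Real.exp (-(κ + i * Real.log 2)) = 1 / k * (1 / 2) ^ i := by
          rw [neg_add, Real.exp_add, Real.exp_neg κ, Real.exp_log hk0, Real.exp_neg,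
            Real.exp_nat_mul, Real.exp_log (by norm_num), one_div, one_div, inv_pow]
        rw [h5] at h4
        have h6 : 2 / (k : ℝ) * (1 / 2) ^ i = 2 * (1 / k * (1 / 2) ^ i) := by ring
        rw [h6]
        linarith
      linarith
  have hone := one_step (b_antitone ν) (b_nonneg ν) (b_tendsto ν) he0 hes hsteps le_rfl
  have hbJ1 : b ν J₁ ≤ 17 * (6 + 4 * D) / k := by
    have h1 : 17 * (6 + 4 * D) / (k : ℝ) = 17 * (6 / k + 4 * D / k) := by ring
    rw [h1]
    linarith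
  rw [punct ν (by positivity)]
  have hbJ0 : b ν J₀ = G ν ((5 / 4) ^ J₀) - ν.real {0} := rfl
  refine le_trans ?_ hlast
  have h1 : (17 * (6 + 4 * D) + 5 * D * (3 + Real.log κ) + D) / (k : ℝ) =
      17 * (6 + 4 * D) / k + 5 * D * (3 + Real.log κ) / k + D / k := by ring
  rw [h1]
  linarith

/-- **The mass of a punctured ball of radius `1 / (2 y)` if `y` is a dense scale.** -/
theorem tail {P : Set ℕ} (hP2 : ∀ p ∈ P, 2 ≤ p) (hco : P.Pairwise Nat.Coprime)
    (hP : Dense3 P) {δ : ℝ} (hδ : 0 < δ) :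
    ∃ k₀ : ℕ, ∀ (A : Finset ℕ) (y : ℕ), (A : Set ℕ) ⊆ P → (∀ p ∈ A, p ≤ y) →
      δ * Real.log y ≤ Real.log A.card → k₀ ≤ A.card →
      ∀ ν : Measure UnitAddCircle, IsProbabilityMeasure ν → (∀ p ∈ P, Inv ν p) →
      ν.real {x | x ≠ 0 ∧ ‖x‖ < 1 / (2 * y)} ≤ 1 / Real.sqrt A.card := by
  obtain ⟨j₀, hj₀1, hsets⟩ := exists_sets hP
  obtain ⟨k₀, hk₀⟩ := eventually_atTop.mp (eventually_good hδ j₀)
  exact ⟨k₀, fun A y hAP hAy hlg hkk ν hν hinvP =>
    tail_core hP2 hco hj₀1 hsets hδ A y hAP hAy hlg (hk₀ _ hkk) ν hν hinvP⟩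

end Pool.Agent.H237.Rare
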