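import Mathlib
import Pool.Agent.H237.Rare.Tail
import Pool.Agent.H237.Rare.Entropy
import Pool.Agent.H237.Sieve.Final
import Pool.Agent.H237.Gap.Compact
import Pool.Graph.R_pool_sql_team_seeded_620a6dc7.Results.MP_96e181_an.LocalMass

/-!
# Rigidity for thin sets of multipliers which are dense at arbitrarily rare scales
-/

namespace Pool.Agent.H237.Rare

open MeasureTheory Set Filter Topology Metric Pool.Agent.H237.Gap Pool.Agent.H237.Sieve

lemma integral_F (σ : Measure UnitAddCircle) [IsProbabilityMeasure σ] (r : ℝ) :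
    ∫ x, F σ r x ∂σ = (σ.prod σ).real {z | ‖z.1 - z.2‖ ≤ r} := by
  have hs : MeasurableSet {z : UnitAddCircle × UnitAddCircle | ‖z.1 - z.2‖ ≤ r} :=
    (isClosed_le (by fun_prop) continuous_const).measurableSet
  unfold F
  simp_rw [measureReal_def]
  rw [integral_toReal (measurable_ball σ r).aemeasurable
    (Eventually.of_forall fun x => measure_lt_top _ _), Measure.prod_apply hs]
  congr 1
  apply lintegral_congr
  intro x
  congr 1
  ext y
  rw [mem_closedBall', dist_eq_norm]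
  rfl

/-- The difference law of an atomless measure has no atom at zero. -/
lemma dl_zero {σ : Measure UnitAddCircle} [IsProbabilityMeasure σ] (hat : ∀ x, σ {x} = 0) :
    (dl σ).real {0} = 0 := by
  unfold dl
  rw [map_measureReal_apply measurable_df (measurableSet_singleton 0), measureReal_def,
    Measure.prod_apply (measurable_df (measurableSet_singleton 0))]
  have h : ∀ x, σ (Prod.mk x ⁻¹' ((fun z : UnitAddCircle × UnitAddCircle => z.1 - z.2) ⁻¹' {0})) = 0 := by
    intro x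
    have e : Prod.mk x ⁻¹' ((fun z : UnitAddCircle × UnitAddCircle => z.1 - z.2) ⁻¹' {0}) = {x} := by
      ext y
      simp only [mem_preimage, mem_singleton_iff, sub_eq_zero]
      exact eq_comm
    rw [e]
    exact hat x
  simp_rw [h]
  simp

/-- The correlation at a dense scale. -/
lemma corr {P : Set ℕ} (hP2 : ∀ p ∈ P, 2 ≤ p) (hco : P.Pairwise Nat.Coprime)
    (hP : Dense3 P) {δ : ℝ} (hδ : 0 < δ)
    (hd : ∃ᶠ x : ℝ in atTop, x ^ δ ≤ ({p ∈ P | (p : ℝ) ≤ x}.ncard : ℝ))
    {σ : Measure UnitAddCircle} [IsProbabilityMeasure σ] (hat : ∀ x, σ {x} = 0)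
    (hinv : ∀ p ∈ P, Inv σ p) :
    ∀ ε : ℝ, 0 < ε → ∃ ρ : ℝ, 0 < ρ ∧ ρ < ε ∧ ∫ x, F σ ρ x ∂σ ≤ ρ ^ (δ / 4) := by
  intro ε hε
  obtain ⟨k₀, hk₀⟩ := tail hP2 hco hP hδ
  have h1 : ∀ᶠ x : ℝ in atTop, (k₀ : ℝ) ≤ x ^ δ := (tendsto_rpow_atTop hδ).eventually
    (eventually_ge_atTop _)
  obtain ⟨x, hx, hx1, hx2⟩ := (hd.and_eventually (h1.and
    (eventually_ge_atTop (max 8 (1 / ε + 1))))).exists
  have hx8 : 8 ≤ x := le_trans (le_max_left _ _) hx2
  have hxε : 1 / ε + 1 ≤ x := le_trans (le_max_right _ _) hx2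
  have hx0 : 0 < x := by linarith
  have hfin : {p ∈ P | (p : ℝ) ≤ x}.Finite := by
    apply (Set.finite_Iic ⌊x⌋₊).subset
    intro p hp
    exact Nat.le_floor hp.2
  set A := hfin.toFinset with hA
  set y := ⌊x⌋₊ with hy
  have hcard : ({p ∈ P | (p : ℝ) ≤ x}.ncard : ℝ) = A.card := by
    rw [Set.ncard_eq_toFinset_card _ hfin]
  rw [hcard] at hx
  have hyx : (y : ℝ) ≤ x := Nat.floor_le hx0.le
  have hyx2 : x < y + 1 := Nat.lt_floor_add_one x
  have hy0 : (0 : ℝ) < y := by linarith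
  have hxδ0 : 0 < x ^ δ := Real.rpow_pos_of_pos hx0 _
  have hA0 : (0 : ℝ) < A.card := lt_of_lt_of_le hxδ0 hx
  have hlg : δ * Real.log y ≤ Real.log A.card := by
    have h2 : Real.log (x ^ δ) ≤ Real.log A.card := Real.log_le_log hxδ0 hx
    rw [Real.log_rpow hx0] at h2
    have h3 : Real.log y ≤ Real.log x := Real.log_le_log hy0 hyx
    nlinarith
  have hprob := dl_prob σ
  have h4 := hk₀ A y (by
      intro p hp
      rw [hA, Set.Finite.coe_toFinset] at hp
      exact hp.1) (by
      intro p hp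
      rw [hA, Set.Finite.mem_toFinset] at hp
      exact Nat.le_floor hp.2) hlg (by
      have : (k₀ : ℝ) ≤ A.card := le_trans hx1 hx
      exact_mod_cast this) (dl σ) hprob (fun p hp => dl_inv σ (hinv p hp))
  rw [punct (dl σ) (by positivity), dl_zero hat, sub_zero, dl_g] at h4
  refine ⟨1 / (4 * y), by positivity, ?_, ?_⟩
  · rw [div_lt_iff₀ (by positivity)]
    have h5 : 1 / ε < 4 * y := by linarith
    rw [div_lt_iff₀ hε] at h5
    linarith
  · rw [integral_F]
    refine le_trans (measureReal_mono ?_) (le_trans h4 ?_)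
    · intro z hz
      have hz' : ‖z.1 - z.2‖ ≤ 1 / (4 * y) := hz
      change ‖z.1 - z.2‖ < 1 / (2 * y)
      refine lt_of_le_of_lt hz' ?_
      apply one_div_lt_one_div_of_lt (by positivity)
      linarith
    · have h5 : x ^ (δ / 2) ≤ Real.sqrt A.card := by
        rw [show x ^ (δ / 2) = Real.sqrt (x ^ δ) by
          rw [Real.sqrt_eq_rpow, ← Real.rpow_mul hx0.le]; ring_nf]
        exact Real.sqrt_le_sqrt hx
      have h6 : 0 < x ^ (δ / 2) := Real.rpow_pos_of_pos hx0 _
      have h7 : 1 / Real.sqrt A.card ≤ 1 / x ^ (δ / 2) := one_div_le_one_div_of_le h6 h5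
      refine le_trans h7 ?_
      rw [Real.div_rpow zero_le_one (by positivity), Real.one_rpow]
      apply one_div_le_one_div_of_le (by positivity)
      have h8 : (4 * y : ℝ) ≤ x ^ (2 : ℝ) := by
        rw [Real.rpow_two]
        nlinarith
      calc (4 * (y : ℝ)) ^ (δ / 4) ≤ (x ^ (2 : ℝ)) ^ (δ / 4) :=
            Real.rpow_le_rpow (by positivity) h8 (by positivity)
        _ = x ^ (δ / 2) := by
            rw [← Real.rpow_mul hx0.le]
            ring_nf

/-- The mean ratios of a singular invariant measure. -/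
lemma ratios {p q : ℕ} (hp : 2 ≤ p) (hq : 2 ≤ q) (hpq : Nat.Coprime p q)
    {σ : Measure UnitAddCircle} [hσ : IsProbabilityMeasure σ] (hip : Inv σ p) (hiq : Inv σ q)
    (hsing : σ ⟂ₘ (volume : Measure UnitAddCircle)) (η : ℝ) (hη : 0 < η) :
    ∃ r : ℝ, 0 < r ∧ ∀ s, 0 < s → 2 * s ≤ r → 1 - η ≤ ∫ x, F σ s x / F σ (2 * s) x ∂σ := by
  have h := (Pool.Agent.Results.MP_96e181_an.LocalMass.result p q hp hq
    (irrational_of_coprime hp hq hpq) σ hσ hip hiq).1 1 one_pos
  rw [Measure.singularPart_eq_self.mpr hsing] at h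
  simp only [probReal_univ, Real.rpow_one] at h
  have h1 : ∀ᶠ r : ℝ in 𝓝[>] 0, 1 - η < ∫ x,
      σ.real (closedBall x (r / Real.log (Real.log (1 / r)))) / σ.real (closedBall x r) ∂σ :=
    h.eventually (lt_mem_nhds (by linarith))
  have h2 : ∀ᶠ r : ℝ in 𝓝[>] 0, 2 ≤ Real.log (Real.log (1 / r)) := by
    have h3 : Tendsto (fun r : ℝ => 1 / r) (𝓝[>] 0) atTop := by
      simp_rw [one_div]
      exact tendsto_inv_nhdsGT_zero
    exact (Real.tendsto_log_atTop.comp (Real.tendsto_log_atTop.comp h3)).eventually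
      (eventually_ge_atTop 2)
  have h3 := h1.and h2
  rw [eventually_nhdsWithin_iff, Metric.eventually_nhds_iff] at h3
  obtain ⟨r, hr, h3⟩ := h3
  refine ⟨r / 2, by positivity, ?_⟩
  intro s hs hsr
  obtain ⟨h4, h5⟩ := h3 (y := 2 * s) (by
    rw [Real.dist_eq, sub_zero, abs_of_pos (by positivity)]
    linarith) (by
    rw [mem_Ioi]; positivity)
  refine le_trans h4.le ?_
  have hint : ∀ t : ℝ, Integrable (fun x => F σ (min t (2 * s)) x / F σ (2 * s) x) σ := by
    intro t
    refine Integrable.of_bound (C := 1)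
      ((measurable_F σ _).div (measurable_F σ _)).aestronglyMeasurable ?_
    refine Eventually.of_forall fun x => ?_
    rw [Real.norm_of_nonneg (div_nonneg (F_nonneg σ _ _) (F_nonneg σ _ _))]
    exact div_le_one_of_le₀ (F_mono σ (min_le_right _ _) x) (F_nonneg σ _ _)
  have hle : 2 * s / Real.log (Real.log (1 / (2 * s))) ≤ s := by
    rw [div_le_iff₀ (by linarith)]
    nlinarith
  have i1 := hint s
  have i2 := hint (2 * s / Real.log (Real.log (1 / (2 * s))))
  rw [min_eq_left (by linarith)] at i1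
  rw [min_eq_left (by linarith)] at i2
  apply integral_mono i2 i1
  intro x
  exact div_le_div_of_nonneg_right (F_mono σ hle x) (F_nonneg σ _ _)

/-- **Rigidity.** -/
theorem rigid {P : Set ℕ} (hP2 : ∀ p ∈ P, 2 ≤ p) (hco : P.Pairwise Nat.Coprime)
    (hP : Dense3 P) {δ : ℝ} (hδ : 0 < δ)
    (hd : ∃ᶠ x : ℝ in atTop, x ^ δ ≤ ({p ∈ P | (p : ℝ) ≤ x}.ncard : ℝ))
    (μ : Measure UnitAddCircle) [hμ : IsProbabilityMeasure μ] (hat : ∀ x, μ {x} = 0)
    (hinv : ∀ p ∈ P, Inv μ p) : μ = volume := by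
  obtain ⟨p, hp, q, hq, hne⟩ := exists_pair hP
  have hpq := hco hp hq hne
  have hp2 := hP2 p hp
  have hq2 := hP2 q hq
  by_contra hcon
  have hs := (Pool.Agent.Results.MP_96e181_an.LocalMass.result p q hp2 hq2
    (irrational_of_coprime hp2 hq2 hpq) μ hμ (hinv p hp) (hinv q hq)).2.1
  set τ := μ.singularPart (volume : Measure UnitAddCircle) with hτ
  have hτ0 : τ univ ≠ 0 := by
    intro h0
    exact hcon (hs.mp (by rw [measureReal_def, h0]; simp))
  have hτtop : τ univ ≠ ⊤ := measure_ne_top _ _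
  set σ := (τ univ)⁻¹ • τ with hσ
  have hprob : IsProbabilityMeasure σ := ⟨by
    rw [hσ, Measure.smul_apply, smul_eq_mul, ENNReal.inv_mul_cancel hτ0 hτtop]⟩
  have hσinv : ∀ p ∈ P, Inv σ p := by
    intro p hp
    have hep : Ergodic (fun x : UnitAddCircle => p • x) (volume : Measure UnitAddCircle) :=
      AddCircle.ergodic_nsmul (T := 1) (by have := hP2 p hp; omega)
    have h1 : MeasurePreserving (fun x : UnitAddCircle => p • x) τ τ :=
      (hinv p hp).singularPart hep.toMeasurePreserving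
    refine ⟨h1.measurable, ?_⟩
    rw [hσ, Measure.map_smul, h1.map_eq]
  have hσat : ∀ x, σ {x} = 0 := by
    intro x
    rw [hσ, Measure.smul_apply, smul_eq_mul]
    have : τ {x} = 0 := le_antisymm (le_trans (Measure.singularPart_le μ volume {x}) (hat x).le)
      bot_le
    rw [this, mul_zero]
  have hsing : σ ⟂ₘ (volume : Measure UnitAddCircle) :=
    (Measure.mutuallySingular_singularPart μ volume).smul _
  exact no_dim (σ := σ) (show 0 < δ / 4 by positivity)
    (ratios hp2 hq2 hpq (hσinv p hp) (hσinv q hq) hsing)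
    (corr hP2 hco hP hδ hd hσat hσinv)

end Pool.Agent.H237.Rare
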