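import Mathlib

/-!
# The upper logarithmic density of the semigroup generated by a set
-/

namespace Pool.Agent.H237.Rare

open Set Filter Topology

/-- The elements of the semigroup generated by `F` up to `x`. -/
noncomputable def SF (F : Set ℕ) (x : ℕ) : Finset ℕ :=
  @Finset.filter ℕ (fun n => n ∈ Submonoid.closure F) (fun _ => Classical.propDecidable _)
    (Finset.Icc 1 x)

lemma mem_SF {F : Set ℕ} {x n : ℕ} : n ∈ SF F x ↔ (1 ≤ n ∧ n ≤ x) ∧ n ∈ Submonoid.closure F := by
  classical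
  unfold SF
  rw [@Finset.mem_filter, Finset.mem_Icc]

/-- Rankin's bound. -/
lemma rankin (s : ℝ) (hs : 0 < s) (x : ℕ) (F : Finset ℕ) (hF : ∀ p ∈ F, 2 ≤ p) :
    ∑ n ∈ SF (F : Set ℕ) x, (n : ℝ) ^ (-s) ≤ ∏ p ∈ F, (1 - (p : ℝ) ^ (-s))⁻¹ := by
  classical
  induction F using Finset.induction_on with
  | empty =>
    simp only [Finset.prod_empty]
    calc ∑ n ∈ SF ((∅ : Finset ℕ) : Set ℕ) x, (n : ℝ) ^ (-s) ≤ ∑ n ∈ ({1} : Finset ℕ), (n : ℝ) ^ (-s) := by
          apply Finset.sum_le_sum_of_subset_of_nonneg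
          · intro n hn
            rw [mem_SF, Finset.coe_empty, Submonoid.closure_empty, Submonoid.mem_bot] at hn
            rw [Finset.mem_singleton]
            exact hn.2
          · intro n _ _
            positivity
      _ = 1 := by simp
  | insert p F hp ih =>
    have ih' := ih (fun q hq => hF q (Finset.mem_insert_of_mem hq))
    have hp2 : 2 ≤ p := hF p (Finset.mem_insert_self _ _)
    have hpR : (2 : ℝ) ≤ p := by exact_mod_cast hp2
    have hp0 : (0 : ℝ) < p := by linarith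
    have ht0 : 0 < (p : ℝ) ^ (-s) := Real.rpow_pos_of_pos hp0 _
    have ht1 : (p : ℝ) ^ (-s) < 1 :=
      Real.rpow_lt_one_of_one_lt_of_neg (by linarith) (by linarith)
    rw [Finset.prod_insert hp]
    set S := SF (F : Set ℕ) x with hS
    have hS0 : 0 ≤ ∑ n ∈ S, (n : ℝ) ^ (-s) := Finset.sum_nonneg fun n _ => by positivity
    set R := Finset.range (x + 1) ×ˢ S with hR
    have h1 : ∑ n ∈ SF ((insert p F : Finset ℕ) : Set ℕ) x, (n : ℝ) ^ (-s) ≤
        ∑ n ∈ SF ((insert p F : Finset ℕ) : Set ℕ) x,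
          ∑ z ∈ R.filter (fun z => p ^ z.1 * z.2 = n), ((p ^ z.1 * z.2 : ℕ) : ℝ) ^ (-s) := by
      apply Finset.sum_le_sum
      intro n hn
      rw [mem_SF, Finset.coe_insert, Set.insert_eq, Submonoid.closure_union,
        Submonoid.mem_sup] at hn
      obtain ⟨⟨hn1, hn2⟩, u, hu, m, hm, hum⟩ := hn
      rw [Submonoid.mem_closure_singleton] at hu
      obtain ⟨a, rfl⟩ := hu
      have hm0 : m ≠ 0 := by
        rintro rfl
        rw [mul_zero] at hum
        omega
      have hpa : 1 ≤ p ^ a := Nat.one_le_pow _ _ (by omega)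
      have ha : a < x + 1 := by
        have h2 : a < 2 ^ a := Nat.lt_two_pow_self
        have h3 : 2 ^ a ≤ p ^ a := Nat.pow_le_pow_left hp2 a
        have h4 : p ^ a ≤ p ^ a * m := Nat.le_mul_of_pos_right _ (by omega)
        omega
      have hmx : m ≤ x := by
        have h4 : m ≤ p ^ a * m := Nat.le_mul_of_pos_left _ (by omega)
        omega
      have hz : (a, m) ∈ R.filter (fun z => p ^ z.1 * z.2 = n) := by
        rw [Finset.mem_filter, hR, Finset.mem_product, Finset.mem_range, hS, mem_SF]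
        exact ⟨⟨ha, ⟨⟨by omega, hmx⟩, hm⟩⟩, hum⟩
      have h5 := Finset.single_le_sum (f := fun z : ℕ × ℕ => ((p ^ z.1 * z.2 : ℕ) : ℝ) ^ (-s))
        (fun z _ => by positivity) hz
      simp only [hum] at h5
      exact h5
    refine le_trans h1 ?_
    have h2 : ∑ n ∈ SF ((insert p F : Finset ℕ) : Set ℕ) x,
          ∑ z ∈ R.filter (fun z => p ^ z.1 * z.2 = n), ((p ^ z.1 * z.2 : ℕ) : ℝ) ^ (-s) ≤
        ∑ z ∈ R, ((p ^ z.1 * z.2 : ℕ) : ℝ) ^ (-s) :=
      Finset.sum_fiberwise_le_sum_of_sum_fiber_nonneg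
        (fun n _ => Finset.sum_nonneg fun z _ => by positivity)
    refine le_trans h2 ?_
    rw [hR, Finset.sum_product]
    have h3 : ∀ a ∈ Finset.range (x + 1), ∑ m ∈ S, ((p ^ a * m : ℕ) : ℝ) ^ (-s) =
        ((p : ℝ) ^ (-s)) ^ a * ∑ m ∈ S, (m : ℝ) ^ (-s) := by
      intro a _
      rw [Finset.mul_sum]
      apply Finset.sum_congr rfl
      intro m _
      push_cast
      rw [Real.mul_rpow (by positivity) (by positivity)]
      congr 1
      rw [← Real.rpow_natCast, ← Real.rpow_natCast, ← Real.rpow_mul hp0.le,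
        ← Real.rpow_mul hp0.le, mul_comm]
    rw [Finset.sum_congr rfl h3, ← Finset.sum_mul]
    apply mul_le_mul _ ih' hS0 (inv_nonneg.mpr (by linarith))
    have h4 : Summable fun a : ℕ => ((p : ℝ) ^ (-s)) ^ a :=
      summable_geometric_of_lt_one ht0.le ht1
    rw [← tsum_geometric_of_lt_one ht0.le ht1]
    exact h4.sum_le_tsum _ (fun a _ => by positivity)

/-- The factors of an element of the semigroup. -/
lemma closure_le {P : Set ℕ} (hP : ∀ p ∈ P, 2 ≤ p) {n : ℕ} (hn : n ∈ Submonoid.closure P) :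
    1 ≤ n ∧ ∀ x : ℕ, n ≤ x → n ∈ Submonoid.closure {p ∈ P | p ≤ x} := by
  induction hn using Submonoid.closure_induction with
  | mem p hp =>
    refine ⟨by have := hP p hp; omega, fun x hx => Submonoid.subset_closure ⟨hp, hx⟩⟩
  | one => exact ⟨le_rfl, fun x _ => Submonoid.one_mem _⟩
  | mul a b _ _ ha hb =>
    obtain ⟨ha1, ha2⟩ := ha
    obtain ⟨hb1, hb2⟩ := hb
    refine ⟨Nat.one_le_iff_ne_zero.mpr (Nat.mul_ne_zero (by omega) (by omega)), fun x hx => ?_⟩
    have h1 : a ≤ a * b := Nat.le_mul_of_pos_right _ (by omega)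
    have h2 : b ≤ a * b := Nat.le_mul_of_pos_left _ (by omega)
    exact Submonoid.mul_mem _ (ha2 x (by omega)) (hb2 x (by omega))

/-- The sum over a sparse set. -/
lemma sum_sparse {δ : ℝ} (hδ : 0 < δ) (A : Finset ℕ) (hA : ∀ p ∈ A, 2 ≤ p) (t₀ : ℕ)
    (h : ∀ t : ℕ, t₀ ≤ t → ((A.filter (· ≤ t)).card : ℝ) ≤ (t : ℝ) ^ δ) :
    ∑ p ∈ A, (p : ℝ) ^ (-(2 * δ)) ≤ t₀ + 2 := by
  classical
  rw [← Finset.sum_filter_add_sum_filter_not A (fun p => p < t₀)]
  apply add_le_add
  · calc ∑ p ∈ A.filter (fun p => p < t₀), (p : ℝ) ^ (-(2 * δ)) ≤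
        ∑ p ∈ A.filter (fun p => p < t₀), 1 := by
          apply Finset.sum_le_sum
          intro p hp
          rw [Finset.mem_filter] at hp
          have : (1 : ℝ) ≤ p := by
            have := hA p hp.1
            exact_mod_cast (by omega : 1 ≤ p)
          exact Real.rpow_le_one_of_one_le_of_nonpos this (by linarith)
      _ = ((A.filter (fun p => p < t₀)).card : ℝ) := by simp
      _ ≤ t₀ := by
          have : (A.filter (fun p => p < t₀)).card ≤ (Finset.range t₀).card := by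
            apply Finset.card_le_card
            intro p hp
            rw [Finset.mem_filter] at hp
            exact Finset.mem_range.mpr hp.2
          rw [Finset.card_range] at this
          exact_mod_cast this
  · set B := A.filter (fun p => ¬ p < t₀) with hB
    set rk : ℕ → ℕ := fun p => (A.filter (· ≤ p)).card with hrk
    have hmono : ∀ p ∈ A, ∀ q ∈ A, p < q → rk p < rk q := by
      intro p hp q hq hpq
      apply Finset.card_lt_card
      rw [Finset.ssubset_iff_subset_ne]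
      refine ⟨?_, ?_⟩
      · intro z hz
        rw [Finset.mem_filter] at hz ⊢
        exact ⟨hz.1, by omega⟩
      · intro heq
        have h1 : q ∈ A.filter (· ≤ q) := Finset.mem_filter.mpr ⟨hq, le_rfl⟩
        rw [← heq, Finset.mem_filter] at h1
        omega
    have hinj : Set.InjOn rk (B : Set ℕ) := by
      intro p hp q hq heq
      rw [Finset.mem_coe, hB, Finset.mem_filter] at hp hq
      rcases lt_trichotomy p q with h1 | h1 | h1
      · have := hmono p hp.1 q hq.1 h1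
        omega
      · exact h1
      · have := hmono q hq.1 p hp.1 h1
        omega
    have hpos : ∀ p ∈ A, 1 ≤ rk p := by
      intro p hp
      exact Finset.card_pos.mpr ⟨p, Finset.mem_filter.mpr ⟨hp, le_rfl⟩⟩
    calc ∑ p ∈ B, (p : ℝ) ^ (-(2 * δ)) ≤ ∑ p ∈ B, ((rk p : ℝ) ^ 2)⁻¹ := by
          apply Finset.sum_le_sum
          intro p hp
          rw [hB, Finset.mem_filter] at hp
          have h1 := h p (by omega)
          have h2 : (1 : ℝ) ≤ rk p := by exact_mod_cast hpos p hp.1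
          have h3 : (rk p : ℝ) ≤ (p : ℝ) ^ δ := h1
          have h4 : (p : ℝ) ^ (-(2 * δ)) = (((p : ℝ) ^ δ) ^ 2)⁻¹ := by
            rw [Real.rpow_neg (by positivity), ← Real.rpow_natCast, ← Real.rpow_mul (by positivity)]
            congr 2
            push_cast
            ring
          rw [h4]
          apply inv_anti₀ (by positivity)
          exact pow_le_pow_left₀ (by linarith) h3 2
      _ = ∑ i ∈ B.image rk, (((i : ℕ) : ℝ) ^ 2)⁻¹ := by
          rw [Finset.sum_image hinj]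
      _ ≤ ∑ i ∈ Finset.Ioo 0 (A.card + 1), (((i : ℕ) : ℝ) ^ 2)⁻¹ := by
          apply Finset.sum_le_sum_of_subset_of_nonneg
          · intro i hi
            rw [Finset.mem_image] at hi
            obtain ⟨p, hp, rfl⟩ := hi
            rw [hB, Finset.mem_filter] at hp
            rw [Finset.mem_Ioo]
            have h1 := hpos p hp.1
            have h2 : rk p ≤ A.card := Finset.card_filter_le _ _
            omega
          · intro i _ _
            positivity
      _ ≤ 2 / ((0 : ℕ) + 1) := sum_Ioo_inv_sq_le _ _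
      _ = 2 := by norm_num

/-- **The number of elements of the semigroup generated by a sparse set.** -/
lemma card_SF {P : Set ℕ} (hP : ∀ p ∈ P, 2 ≤ p) {δ : ℝ} (hδ : 0 < δ)
    (h : ∀ᶠ x : ℝ in atTop, ({p ∈ P | (p : ℝ) ≤ x}.ncard : ℝ) < x ^ δ) :
    ∃ B : ℝ, 0 < B ∧ ∀ x : ℕ, 1 ≤ x → ((SF P x).card : ℝ) ≤ B * (x : ℝ) ^ (2 * δ) := by
  classical
  obtain ⟨T, hT⟩ := eventually_atTop.mp h
  set t₀ := ⌈T⌉₊ with ht₀
  set c : ℝ := (1 - (2 : ℝ) ^ (-(2 * δ)))⁻¹ with hc
  have h2lt : (2 : ℝ) ^ (-(2 * δ)) < 1 :=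
    Real.rpow_lt_one_of_one_lt_of_neg (by norm_num) (by linarith)
  have hc0 : 0 < c := by
    rw [hc, inv_pos]
    linarith
  refine ⟨Real.exp (c * (t₀ + 2)), Real.exp_pos _, fun x hx => ?_⟩
  have hxR : (1 : ℝ) ≤ x := by exact_mod_cast hx
  set A : Finset ℕ := (Finset.range (x + 1)).filter (· ∈ P) with hA
  have hA2 : ∀ p ∈ A, 2 ≤ p := fun p hp => hP p (Finset.mem_filter.mp hp).2
  have hsub : SF P x ⊆ SF (A : Set ℕ) x := by
    intro n hn
    rw [mem_SF] at hn ⊢
    refine ⟨hn.1, ?_⟩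
    have h1 := (closure_le hP hn.2).2 x hn.1.2
    have h2 : {p ∈ P | p ≤ x} = (A : Set ℕ) := by
      ext p
      rw [hA, Finset.coe_filter]
      simp only [Finset.mem_range, mem_ofPred_eq]
      constructor
      · rintro ⟨h3, h4⟩
        exact ⟨by omega, h3⟩
      · rintro ⟨h3, h4⟩
        exact ⟨h4, by omega⟩
    rwa [h2] at h1
  have hsp := sum_sparse hδ A hA2 t₀ (by
    intro t ht
    have h1 : T ≤ t := le_trans (Nat.le_ceil T) (by exact_mod_cast ht)
    have h2 := hT t h1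
    refine le_trans ?_ h2.le
    have hfin : {p ∈ P | (p : ℝ) ≤ (t : ℝ)}.Finite := by
      apply (Set.finite_Iic t).subset
      intro p hp
      have : (p : ℝ) ≤ t := hp.2
      exact_mod_cast this
    rw [Set.ncard_eq_toFinset_card _ hfin]
    have h3 : A.filter (· ≤ t) ⊆ hfin.toFinset := by
      intro p hp
      rw [Finset.mem_filter, hA, Finset.mem_filter] at hp
      rw [Set.Finite.mem_toFinset]
      exact ⟨hp.1.2, by exact_mod_cast hp.2⟩
    exact_mod_cast Finset.card_le_card h3)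
  have hprod : ∏ p ∈ A, (1 - (p : ℝ) ^ (-(2 * δ)))⁻¹ ≤ Real.exp (c * (t₀ + 2)) := by
    calc ∏ p ∈ A, (1 - (p : ℝ) ^ (-(2 * δ)))⁻¹ ≤ ∏ p ∈ A, Real.exp (c * (p : ℝ) ^ (-(2 * δ))) := by
          apply Finset.prod_le_prod
          · intro p hp
            have hpR : (2 : ℝ) ≤ p := by exact_mod_cast hA2 p hp
            have h1 : (p : ℝ) ^ (-(2 * δ)) < 1 :=
              Real.rpow_lt_one_of_one_lt_of_neg (by linarith) (by linarith)
            exact inv_nonneg.mpr (by linarith)
          · intro p hp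
            have hpR : (2 : ℝ) ≤ p := by exact_mod_cast hA2 p hp
            set t := (p : ℝ) ^ (-(2 * δ)) with ht
            have h1 : t ≤ (2 : ℝ) ^ (-(2 * δ)) :=
              Real.rpow_le_rpow_of_nonpos (by norm_num) hpR (by linarith)
            have h0 : 0 ≤ t := by positivity
            have h2 : (1 - t)⁻¹ ≤ c := by
              rw [hc]
              apply inv_anti₀ (by linarith)
              linarith
            have h3 : (1 - t)⁻¹ = 1 + t * (1 - t)⁻¹ := by
              have : (1 - t) ≠ 0 := by linarith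
              field_simp
              ring
            rw [h3]
            have h4 : t * (1 - t)⁻¹ ≤ c * t := by
              rw [mul_comm]
              exact mul_le_mul_of_nonneg_right h2 h0
            have h5 := Real.add_one_le_exp (c * t)
            linarith
      _ = Real.exp (c * ∑ p ∈ A, (p : ℝ) ^ (-(2 * δ))) := by
          rw [← Real.exp_sum, Finset.mul_sum]
      _ ≤ _ := Real.exp_le_exp.mpr (mul_le_mul_of_nonneg_left hsp hc0.le)
  calc ((SF P x).card : ℝ) = ∑ n ∈ SF P x, 1 := by simp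
    _ ≤ ∑ n ∈ SF P x, (x : ℝ) ^ (2 * δ) * (n : ℝ) ^ (-(2 * δ)) := by
        apply Finset.sum_le_sum
        intro n hn
        rw [mem_SF] at hn
        have hn1 : (1 : ℝ) ≤ n := by exact_mod_cast hn.1.1
        have hn2 : (n : ℝ) ≤ x := by exact_mod_cast hn.1.2
        rw [Real.rpow_neg (by positivity), ← div_eq_mul_inv, one_le_div (by positivity)]
        exact Real.rpow_le_rpow (by positivity) hn2 (by positivity)
    _ = (x : ℝ) ^ (2 * δ) * ∑ n ∈ SF P x, (n : ℝ) ^ (-(2 * δ)) := by rw [Finset.mul_sum]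
    _ ≤ (x : ℝ) ^ (2 * δ) * ∑ n ∈ SF (A : Set ℕ) x, (n : ℝ) ^ (-(2 * δ)) := by
        apply mul_le_mul_of_nonneg_left _ (by positivity)
        exact Finset.sum_le_sum_of_subset_of_nonneg hsub (fun n _ _ => by positivity)
    _ ≤ (x : ℝ) ^ (2 * δ) * Real.exp (c * (t₀ + 2)) := by
        apply mul_le_mul_of_nonneg_left _ (by positivity)
        exact le_trans (rankin (2 * δ) (by positivity) x A hA2) hprod
    _ = _ := mul_comm _ _

/-- **If the semigroup has positive upper logarithmic density then the generators are dense at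
arbitrarily large scales.** -/
theorem dense_of_upper {P : Set ℕ} (hP : ∀ p ∈ P, 2 ≤ p) {δ : ℝ} (hδ : 0 < δ)
    (h : ∃ᶠ x : ℝ in atTop, x ^ δ ≤ ({n ∈ (Submonoid.closure P : Set ℕ) | (n : ℝ) ≤ x}.ncard : ℝ)) :
    ∃ᶠ x : ℝ in atTop, x ^ (δ / 4) ≤ ({p ∈ P | (p : ℝ) ≤ x}.ncard : ℝ) := by
  by_contra hcon
  rw [not_frequently] at hcon
  have h1 : ∀ᶠ x : ℝ in atTop, ({p ∈ P | (p : ℝ) ≤ x}.ncard : ℝ) < x ^ (δ / 4) :=
    hcon.mono fun x hx => not_le.mp hx
  obtain ⟨B, hB0, hB⟩ := card_SF hP (show 0 < δ / 4 by positivity) h1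
  have h2 : ∀ᶠ x : ℝ in atTop, B < x ^ (δ / 2) :=
    (tendsto_rpow_atTop (show 0 < δ / 2 by positivity)).eventually (eventually_gt_atTop B)
  obtain ⟨x, hx, hx2, hx1⟩ := (h.and_eventually (h2.and (eventually_ge_atTop 1))).exists
  have hx0 : 0 < x := by linarith
  have h3 : ({n ∈ (Submonoid.closure P : Set ℕ) | (n : ℝ) ≤ x}.ncard : ℝ) ≤
      ((SF P ⌊x⌋₊).card : ℝ) := by
    rw [← Set.ncard_coe_finset]
    have h4 : {n ∈ (Submonoid.closure P : Set ℕ) | (n : ℝ) ≤ x} ⊆ (SF P ⌊x⌋₊ : Set ℕ) := by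
      intro n hn
      rw [Finset.mem_coe, mem_SF]
      exact ⟨⟨(closure_le hP hn.1).1, Nat.le_floor hn.2⟩, hn.1⟩
    exact_mod_cast Set.ncard_le_ncard h4 (Finset.finite_toSet _)
  have h5 := hB ⌊x⌋₊ (Nat.le_floor (by simpa using hx1))
  have h6 : ((⌊x⌋₊ : ℕ) : ℝ) ^ (2 * (δ / 4)) ≤ x ^ (δ / 2) := by
    have : 2 * (δ / 4) = δ / 2 := by ring
    rw [this]
    exact Real.rpow_le_rpow (by positivity) (Nat.floor_le hx0.le) (by positivity)
  have h7 : x ^ δ = x ^ (δ / 2) * x ^ (δ / 2) := by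
    rw [← Real.rpow_add hx0]; ring_nf
  have h8 : 0 < x ^ (δ / 2) := Real.rpow_pos_of_pos hx0 _
  have h9 : B * ((⌊x⌋₊ : ℕ) : ℝ) ^ (2 * (δ / 4)) < x ^ (δ / 2) * x ^ (δ / 2) := by
    calc B * ((⌊x⌋₊ : ℕ) : ℝ) ^ (2 * (δ / 4)) ≤ B * x ^ (δ / 2) :=
          mul_le_mul_of_nonneg_left h6 hB0.le
      _ < _ := mul_lt_mul_of_pos_right hx2 h8
  linarith

end Pool.Agent.H237.Rare
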