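import Mathlib
import Pool.Agent.H237.Rare.Rigid
import Pool.Agent.H237.Rare.Semigroup
import Pool.Agent.H237.Gap.Cond

/-!
# Furstenberg's measure conjecture for thin semigroups of positive upper logarithmic density

Let `P` be a set of pairwise coprime integers `≥ 2` such that

* `P` has at least `1000 log log log x` elements up to `x`, for all large `x`;
* the multiplicative semigroup generated by `P` has positive UPPER logarithmic density: for some
  `δ > 0` it has at least `x ^ δ` elements up to `x`, for arbitrarily large `x` (these `x` may be
  arbitrarily rare).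

We prove Furstenberg's conjecture for `P`: Lebesgue measure is the only atomless probability measure
on the circle which is invariant under `x ↦ p x` for all `p ∈ P`; no entropy and no ergodicity is
assumed.  Moreover all `P`-invariant probability measures, those on finite sets included, are
uniformly close to a multiple of Lebesgue measure outside the finitely many points of small order.

(Einsiedler and Fish proved the rigidity for semigroups of positive LOWER logarithmic density, that
is, with `x ^ δ` elements up to `x` for all large `x`.  The lower logarithmic density may be zero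
here; for instance `P` can be the set of the primes in `⋃ [√y_i, y_i]` with `y_(i+1) = exp exp y_i`.)

Proof.  1. If `P` has `k ≥ y ^ δ'` elements up to `y`, and `μ` is an atomless `P`-invariant measure,
then the packing arguments of `Pool.Agent.H237.Gap` and `Pool.Agent.H237.Sieve`, applied to the law
of the difference of two independent points, show
`(μ × μ) {‖x - x'‖ < 1 / (2 y)} ≤ k ^ (-1/2)` (file `Pool.Agent.H237.Rare.Tail`): the powers of
single elements of `P` control the scales next to `1 / y`, products of powers of the elements up to
`y` those down to `exp (- exp exp (k / 1000))`, and all elements of `P` the remaining ones.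
2. So the correlation dimension of `μ` is positive along a sequence of scales `r → 0`.
3. If `μ` is singular then, by the local mass formula of the library (`LocalMass`), the mean of
`μ (B (x, r / 2)) / μ (B (x, r))` tends to one as `r → 0`; taking logarithms and summing over all
scales, this is incompatible with 2 (file `Pool.Agent.H237.Rare.Entropy`).
-/

namespace Pool.Agent.Results.MP_96e181_an.UpperDensityRigidity

open MeasureTheory Set Filter Topology

/-- `P` consists of pairwise coprime integers `≥ 2`; it has at least `1000 log log log x` elements
up to `x` for all large `x`; the semigroup generated by `P` has at least `x ^ δ` elements up to `x`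
for some `δ > 0` and arbitrarily large `x`. -/
def Multipliers (P : Set ℕ) : Prop :=
  (∀ p ∈ P, 2 ≤ p) ∧ P.Pairwise Nat.Coprime ∧
    (∀ᶠ x : ℝ in atTop,
      1000 * Real.log (Real.log (Real.log x)) ≤ ({p ∈ P | (p : ℝ) ≤ x}.ncard : ℝ)) ∧
    ∃ δ : ℝ, 0 < δ ∧ ∃ᶠ x : ℝ in atTop,
      x ^ δ ≤ ({n ∈ (Submonoid.closure P : Set ℕ) | (n : ℝ) ≤ x}.ncard : ℝ)

/-- `μ` is invariant under `x ↦ p x` for all `p ∈ P`. -/
def Invariant (P : Set ℕ) (μ : Measure UnitAddCircle) : Prop :=
  ∀ p ∈ P, MeasurePreserving (fun x : UnitAddCircle => p • x) μ μ

/-- The points of order at most `Q`. -/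
def SmallOrder (Q : ℕ) : Set UnitAddCircle := {x | ∃ m : ℕ, 1 ≤ m ∧ m ≤ Q ∧ m • x = 0}

/-- **Rigidity, and uniform equidistribution of all invariant measures.** Let `P` be as in
`Multipliers`.  (1) Every atomless `P`-invariant probability measure is Lebesgue measure.  (2) For
every continuous `f` and `ε > 0` there is `Q` such that for ALL `P`-invariant probability measures
`μ` the integral of `f` over the points which are not of order at most `Q` differs by at most `ε`
from the `μ`-mass of these points times the Lebesgue integral of `f`. -/
theorem result (P : Set ℕ) (hP : Multipliers P) :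
    (∀ μ : Measure UnitAddCircle, IsProbabilityMeasure μ → (∀ x, μ {x} = 0) →
      Invariant P μ → μ = volume) ∧
    (∀ f : C(UnitAddCircle, ℝ), ∀ ε : ℝ, 0 < ε → ∃ Q : ℕ, ∀ μ : Measure UnitAddCircle,
      IsProbabilityMeasure μ → Invariant P μ →
        |(∫ x in (SmallOrder Q)ᶜ, f x ∂μ) - μ.real (SmallOrder Q)ᶜ * ∫ x, f x| ≤ ε) := by
  obtain ⟨hP2, hco, hP3, δ, hδ, hd⟩ := hP
  have hP' : H237.Gap.Dense3 P := hP3
  have hd' := H237.Rare.dense_of_upper hP2 hδ hd
  have h1 : ∀ μ : Measure UnitAddCircle, IsProbabilityMeasure μ → (∀ x, μ {x} = 0) →
      Invariant P μ → μ = volume := fun μ hμ hat hinv =>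
    H237.Rare.rigid hP2 hco hP' (show 0 < δ / 4 by positivity) hd' μ hat hinv
  exact ⟨h1, (H237.Gap.rigid_all hP2 hco hP').mp h1⟩

end Pool.Agent.Results.MP_96e181_an.UpperDensityRigidity
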